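import Mathlib

namespace Pool.Agent.Results.MP_7fb950_al.QuasiLineIff

open Monoid

/-! ### Cayley graphs and word length -/

section Cayley

variable {H : Type} [Group H]

/-- The Cayley graph of `H` with respect to `S`. -/
def cayley (S : Set H) : SimpleGraph H where
  Adj g h := g ≠ h ∧ (g⁻¹ * h ∈ S ∨ h⁻¹ * g ∈ S)
  symm := ⟨fun _ _ hgh => ⟨hgh.1.symm, hgh.2.symm⟩⟩
  loopless := ⟨fun _ hg => hg.1 rfl⟩

/-- A graph is a quasi-line: it is connected and its path metric is quasi-isometric to the real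
line. -/
def QuasiLine {W : Type} (X : SimpleGraph W) : Prop :=
  X.Connected ∧ ∃ (f : W → ℝ) (L C : ℝ), 1 ≤ L ∧ 0 ≤ C ∧
    (∀ g h : W, (1 / L) * (X.dist g h : ℝ) - C ≤ |f g - f h| ∧
      |f g - f h| ≤ L * (X.dist g h : ℝ) + C) ∧
    ∀ r : ℝ, ∃ g : W, |f g - r| ≤ C

/-- word length at most `n` -/
def Len (S : Set H) (n : ℕ) (x : H) : Prop :=
  ∃ l : List H, (∀ y ∈ l, y ∈ S) ∧ l.prod = x ∧ l.length ≤ n

theorem Len.one (S : Set H) (n : ℕ) : Len S n 1 := ⟨[], by simp, by simp, by simp⟩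

theorem Len.mono {S : Set H} {n m : ℕ} {x : H} (h : Len S n x) (hnm : n ≤ m) : Len S m x := by
  obtain ⟨l, h1, h2, h3⟩ := h
  exact ⟨l, h1, h2, h3.trans hnm⟩

theorem Len.mul {S : Set H} {n m : ℕ} {x y : H} (hx : Len S n x) (hy : Len S m y) :
    Len S (n + m) (x * y) := by
  obtain ⟨l, h1, h2, h3⟩ := hx
  obtain ⟨l', h1', h2', h3'⟩ := hy
  refine ⟨l ++ l', ?_, by rw [List.prod_append, h2, h2'], ?_⟩
  · intro z hz
    rcases List.mem_append.mp hz with hz | hz
    · exact h1 z hz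
    · exact h1' z hz
  · rw [List.length_append]
    omega

theorem Len.of_mem {S : Set H} {x : H} (hx : x ∈ S) : Len S 1 x := ⟨[x], by simpa using hx, by simp, by simp⟩

theorem Len.pow {S : Set H} {n : ℕ} {x : H} (hx : Len S n x) (k : ℕ) : Len S (n * k) (x ^ k) := by
  induction k with
  | zero => simpa using Len.one S _
  | succ k ih =>
    rw [pow_succ, Nat.mul_succ]
    exact ih.mul hx

theorem Len.inv {S : Set H} (hS : ∀ s ∈ S, s⁻¹ ∈ S) {n : ℕ} {x : H} (hx : Len S n x) :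
    Len S n x⁻¹ := by
  obtain ⟨l, h1, h2, h3⟩ := hx
  refine ⟨(l.map fun y => y⁻¹).reverse, ?_, ?_, by simpa using h3⟩
  · intro y hy
    simp only [List.mem_reverse, List.mem_map] at hy
    obtain ⟨z, hz, rfl⟩ := hy
    exact hS z (h1 z hz)
  · rw [← h2, List.prod_inv_reverse]

theorem list_to_walk {S : Set H} (l : List H) : ∀ g : H, (∀ y ∈ l, y ∈ S) →
    ∃ p : (cayley S).Walk g (g * l.prod), p.length ≤ l.length := by
  induction l with
  | nil =>
    intro g _
    exact ⟨(SimpleGraph.Walk.nil).copy rfl (by simp), by rw [SimpleGraph.Walk.length_copy]; simp⟩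
  | cons y l ih =>
    intro g hy
    obtain ⟨p, hp⟩ := ih (g * y) (fun z hz => hy z (List.mem_cons_of_mem _ hz))
    by_cases h1 : y = 1
    · refine ⟨p.copy (by rw [h1, mul_one]) (by rw [List.prod_cons]; group), ?_⟩
      simp only [SimpleGraph.Walk.length_copy, List.length_cons]
      omega
    · have hadj : (cayley S).Adj g (g * y) := by
        refine ⟨?_, Or.inl ?_⟩
        · intro h
          apply h1
          exact (mul_eq_left (a := g)).mp h.symm
        · simpa using hy y (by simp)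
      refine ⟨(SimpleGraph.Walk.cons hadj p).copy rfl (by rw [List.prod_cons]; group), ?_⟩
      simp only [SimpleGraph.Walk.length_copy, SimpleGraph.Walk.length_cons, List.length_cons]
      omega

theorem walk_to_list {S : Set H} (hS : ∀ s ∈ S, s⁻¹ ∈ S) {g h : H} (p : (cayley S).Walk g h) :
    Len S p.length (g⁻¹ * h) := by
  induction p with
  | nil => simpa using Len.one S _
  | @cons u v w hadj p ih =>
    have h1 : u⁻¹ * v ∈ S := by
      rcases hadj.2 with h | h
      · exact h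
      · have := hS _ h
        simpa using this
    have h2 : u⁻¹ * w = (u⁻¹ * v) * (v⁻¹ * w) := by group
    rw [h2, SimpleGraph.Walk.length_cons, add_comm]
    exact (Len.of_mem h1).mul ih

theorem cay_dist_le {S : Set H} {g h : H} {n : ℕ} (hl : Len S n (g⁻¹ * h)) :
    (cayley S).dist g h ≤ n := by
  obtain ⟨l, h1, h2, h3⟩ := hl
  obtain ⟨p, hp⟩ := list_to_walk l g h1
  have h4 : g * l.prod = h := by rw [h2]; group
  have := SimpleGraph.dist_le (p.copy rfl h4)
  rw [SimpleGraph.Walk.length_copy] at this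
  omega

theorem cay_connected {S : Set H} (hS : ∀ x : H, ∃ n, Len S n x) : (cayley S).Connected := by
  have : Nonempty H := ⟨1⟩
  refine SimpleGraph.Connected.mk ?_
  intro g h
  obtain ⟨n, l, h1, h2, _⟩ := hS (g⁻¹ * h)
  obtain ⟨p, _⟩ := list_to_walk l g h1
  exact ⟨p.copy rfl (by rw [h2]; group)⟩

theorem len_dist {S : Set H} (hS : ∀ s ∈ S, s⁻¹ ∈ S) (hc : (cayley S).Connected) (g h : H) :
    Len S ((cayley S).dist g h) (g⁻¹ * h) := by
  obtain ⟨p, hp⟩ := hc.exists_walk_length_eq_dist g h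
  rw [← hp]
  exact walk_to_list hS p

end Cayley

/-! ### Graph products -/

section GraphProduct

variable {V : Type} (Γ : SimpleGraph V) (G : V → Type) [∀ u, Group (G u)]

/-- the commutation relations of the graph product -/
def rels : Set (CoprodI G) :=
  {c | ∃ u v, Γ.Adj u v ∧ ∃ (g : G u) (h : G v),
    c = (CoprodI.of g : CoprodI G) * CoprodI.of h * (CoprodI.of g)⁻¹ * (CoprodI.of h)⁻¹}

/-- The graph product. -/
abbrev GraphProduct : Type := CoprodI G ⧸ Subgroup.normalClosure (rels Γ G)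

/-- the canonical map from a vertex group -/
def ofVertex (u : V) : G u →* GraphProduct Γ G :=
  (QuotientGroup.mk' (Subgroup.normalClosure (rels Γ G))).comp CoprodI.of

/-- the subgroup generated by the vertex groups of `Λ` -/
def vertexSubgroup (Λ : Set V) : Subgroup (GraphProduct Γ G) :=
  Subgroup.closure {γ | ∃ u ∈ Λ, ∃ g : G u, ofVertex Γ G u g = γ}

variable {Γ G}

theorem gof_comm {u v : V} (h : Γ.Adj u v) (g : G u) (k : G v) :
    Commute (ofVertex Γ G u g) (ofVertex Γ G v k) := by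
  have h1 : (CoprodI.of g : CoprodI G) * CoprodI.of k * (CoprodI.of g)⁻¹ * (CoprodI.of k)⁻¹ ∈
      Subgroup.normalClosure (rels Γ G) :=
    Subgroup.subset_normalClosure ⟨u, v, h, g, k, rfl⟩
  have h2 := (QuotientGroup.eq_one_iff (N := Subgroup.normalClosure (rels Γ G)) _).mpr h1
  have h3 : ofVertex Γ G u g * ofVertex Γ G v k * (ofVertex Γ G u g)⁻¹ * (ofVertex Γ G v k)⁻¹ = 1 := h2
  rw [mul_inv_eq_one, mul_inv_eq_iff_eq_mul] at h3
  exact h3

/-- the universal property -/
def glift {N : Type} [Group N] (f : ∀ u, G u →* N)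
    (hf : ∀ u v, Γ.Adj u v → ∀ (g : G u) (h : G v), Commute (f u g) (f v h)) : GraphProduct Γ G →* N :=
  QuotientGroup.lift (Subgroup.normalClosure (rels Γ G)) (CoprodI.lift f) (by
    have : Subgroup.normalClosure (rels Γ G) ≤ (CoprodI.lift f).ker := by
      apply Subgroup.normalClosure_le_normal
      rintro c ⟨u, v, huv, g, h, rfl⟩
      simp only [SetLike.mem_coe, MonoidHom.mem_ker, map_mul, map_inv, CoprodI.lift_of]
      rw [(hf u v huv g h).eq]
      group
    intro x hx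
    exact this hx)

theorem glift_gof {N : Type} [Group N] (f : ∀ u, G u →* N)
    (hf : ∀ u v, Γ.Adj u v → ∀ (g : G u) (h : G v), Commute (f u g) (f v h)) (u : V) (g : G u) :
    glift f hf (ofVertex Γ G u g) = f u g := by
  simp [glift, ofVertex]

theorem sub_induction {Λ : Set V} {P : GraphProduct Γ G → Prop} (h1 : P 1)
    (hm : ∀ γ u (g : G u), u ∈ Λ → P γ → P (γ * ofVertex Γ G u g)) (γ : GraphProduct Γ G) (hγ : γ ∈ vertexSubgroup Γ G Λ) :
    P γ := by
  refine Subgroup.closure_induction_right (p := fun x _ => P x) h1 ?_ ?_ hγ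
  · rintro x _ y ⟨u, hu, g, rfl⟩ hp
    exact hm x u g hu hp
  · rintro x _ y ⟨u, hu, g, rfl⟩ hp
    rw [← map_inv]
    exact hm x u g⁻¹ hu hp

theorem sub_univ : vertexSubgroup Γ G Set.univ = ⊤ := by
  rw [eq_top_iff]
  intro x _
  obtain ⟨y, rfl⟩ := QuotientGroup.mk_surjective x
  induction y using CoprodI.induction_on with
  | one => exact one_mem _
  | of i m => exact Subgroup.subset_closure ⟨i, trivial, m, rfl⟩
  | mul x y hx hy => exact mul_mem (hx trivial) (hy trivial)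

theorem gp_induction {P : GraphProduct Γ G → Prop} (h1 : P 1)
    (hm : ∀ γ u (g : G u), P γ → P (γ * ofVertex Γ G u g)) (γ : GraphProduct Γ G) : P γ :=
  sub_induction (Λ := Set.univ) h1 (fun γ u g _ => hm γ u g) γ (by rw [sub_univ]; trivial)

end GraphProduct

section Norm

variable {ι : Type} {M : ι → Type} [∀ i, Group (M i)]

open Classical in
/-- syllable length in a free product -/
noncomputable def nrm (x : CoprodI M) : ℕ := (CoprodI.Word.equiv x).toList.length

theorem nrm_one : nrm (1 : CoprodI M) = 0 := by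
  classical
  have h : (CoprodI.Word.equiv (1 : CoprodI M)) = CoprodI.Word.empty := by
    show (1 : CoprodI M) • (CoprodI.Word.empty : CoprodI.Word M) = _
    rw [one_smul]
  unfold nrm
  convert congrArg (fun w => w.toList.length) h
  rfl

theorem nrm_of_mul {i : ι} (m : M i) (x : CoprodI M) : nrm (CoprodI.of m * x) ≤ nrm x + 1 := by
  classical
  have h : CoprodI.Word.equiv (CoprodI.of m * x) = CoprodI.of m • CoprodI.Word.equiv x := by
    show (CoprodI.of m * x) • (CoprodI.Word.empty : CoprodI.Word M) =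
      CoprodI.of m • (x • (CoprodI.Word.empty : CoprodI.Word M))
    rw [mul_smul]
  have h2 : ∀ p : CoprodI.Word.Pair M i,
      (CoprodI.Word.rcons p).toList.length ≤ p.tail.toList.length + 1 := by
    intro p
    unfold CoprodI.Word.rcons
    split_ifs with hp
    · omega
    · simp [CoprodI.Word.cons]
  have h3 : ∀ p : CoprodI.Word.Pair M i,
      p.tail.toList.length ≤ (CoprodI.Word.rcons p).toList.length := by
    intro p
    unfold CoprodI.Word.rcons
    split_ifs with hp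
    · omega
    · simp [CoprodI.Word.cons]
  have h4 : (CoprodI.Word.equivPair i (CoprodI.Word.equiv x)).tail.toList.length ≤
      (CoprodI.Word.equiv x).toList.length := by
    have h5 := h3 (CoprodI.Word.equivPair i (CoprodI.Word.equiv x))
    rw [← CoprodI.Word.equivPair_symm, Equiv.symm_apply_apply] at h5
    exact h5
  have h6 : (CoprodI.Word.equiv (CoprodI.of m * x)).toList.length ≤
      (CoprodI.Word.equiv x).toList.length + 1 := by
    rw [h, CoprodI.Word.of_smul_def]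
    exact (h2 _).trans (by simpa using h4)
  unfold nrm
  convert h6

theorem nrm_prod {i j : ι} (w : CoprodI.NeWord M i j) : nrm w.prod = w.toList.length := by
  classical
  have h : CoprodI.Word.equiv (w.prod) = w.toWord :=
    CoprodI.Word.equiv.apply_symm_apply w.toWord
  unfold nrm
  have h2 : (CoprodI.Word.equiv (w.prod)).toList.length = w.toList.length := by
    rw [h]
    rfl
  convert h2

theorem nrm_pow {i j : ι} (hij : i ≠ j) {a : M i} {b : M j} (ha : a ≠ 1) (hb : b ≠ 1) (n : ℕ) :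
    nrm ((CoprodI.of a * CoprodI.of b : CoprodI M) ^ n) = 2 * n := by
  have key : ∀ n : ℕ, ∃ w : CoprodI.NeWord M i j,
      w.prod = (CoprodI.of a * CoprodI.of b : CoprodI M) ^ (n + 1) ∧
        w.toList.length = 2 * (n + 1) := by
    intro n
    induction n with
    | zero =>
      refine ⟨CoprodI.NeWord.append (CoprodI.NeWord.singleton a ha) hij
        (CoprodI.NeWord.singleton b hb), ?_, ?_⟩
      · simp
      · simp
    | succ n ih =>
      obtain ⟨w, hw, hl⟩ := ih
      refine ⟨CoprodI.NeWord.append w hij.symm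
        (CoprodI.NeWord.append (CoprodI.NeWord.singleton a ha) hij
        (CoprodI.NeWord.singleton b hb)), ?_, ?_⟩
      · rw [CoprodI.NeWord.append_prod, hw, pow_succ _ (n + 1)]
        simp
      · simp only [CoprodI.NeWord.toList, List.length_append, hl, List.length_cons,
          List.length_nil]
        omega
  cases n with
  | zero => rw [pow_zero, nrm_one]
  | succ n =>
    obtain ⟨w, hw, hl⟩ := key n
    rw [← hw, nrm_prod, hl]

end Norm

/-! ### The machine -/

section Machine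

variable {V : Type} {Γ : SimpleGraph V} {G : V → Type} [∀ u, Group (G u)]

open Classical in
/-- the value at the vertex `w` of an element of `G u` (trivial if `w ≠ u`) -/
noncomputable def at' {u : V} (g : G u) (w : V) : G w := (Pi.mulSingle u g : ∀ w, G w) w

theorem at_same {u : V} (g : G u) : at' g u = g := by
  classical
  unfold at'
  exact Pi.mulSingle_eq_same u g

theorem at_ne {u w : V} (h : w ≠ u) (g : G u) : at' g w = 1 := by
  classical
  unfold at'
  exact Pi.mulSingle_eq_of_ne h g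

theorem at_mul {u : V} (g h : G u) (w : V) : at' (g * h) w = at' g w * at' h w := by
  by_cases hw : w = u
  · subst hw
    simp only [at_same]
  · simp only [at_ne hw, mul_one]

theorem at_one {u : V} (w : V) : at' (1 : G u) w = 1 := by
  by_cases hw : w = u
  · subst hw
    simp only [at_same]
  · simp only [at_ne hw]

variable (t : Bool → V) {x : V} (s : G x)

/-- the free product on which the machine acts -/
abbrev FF (G : V → Type) [∀ u, Group (G u)] (t : Bool → V) : Type :=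
  CoprodI (fun i : Bool => G (t i))

/-- the canonical map from a factor -/
def fof (G : V → Type) [∀ u, Group (G u)] (t : Bool → V) (i : Bool) : G (t i) →* FF G t :=
  CoprodI.of (M := fun i : Bool => G (t i)) (i := i)

open Classical in
/-- the output of the machine -/
noncomputable def out (σ : G x) {u : V} (g : G u) : FF G t :=
  if σ = 1 then fof G t true (at' g (t true))
  else if σ = s then fof G t false (at' g (t false)) else 1

theorem out_mul (σ : G x) {u : V} (g h : G u) : out t s σ (g * h) = out t s σ g * out t s σ h := by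
  unfold out
  split_ifs
  · rw [at_mul, map_mul]
  · rw [at_mul, map_mul]
  · rw [mul_one]

theorem out_one (σ : G x) {u : V} : out t s σ (1 : G u) = 1 := by
  unfold out
  split_ifs
  · rw [at_one, map_one]
  · rw [at_one, map_one]
  · rfl

theorem out_inv (σ : G x) {u : V} (g : G u) : out t s σ g⁻¹ = (out t s σ g)⁻¹ := by
  rw [eq_inv_iff_mul_eq_one, ← out_mul, inv_mul_cancel, out_one]

theorem out_ne {u : V} (hu : ∀ i, t i ≠ u) (σ : G x) (g : G u) : out t s σ g = 1 := by
  unfold out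
  split_ifs
  · rw [at_ne (hu true), map_one]
  · rw [at_ne (hu false), map_one]
  · rfl

theorem out_comm {u v : V} (huv : u ≠ v) (σ : G x) (g : G u) (h : G v) :
    Commute (out t s σ g) (out t s σ h) := by
  unfold out
  split_ifs
  · by_cases h1 : t true = u
    · rw [at_ne (u := v) (w := t true) (fun h2 => huv (h1.symm.trans h2)), map_one]
      exact Commute.one_right _
    · rw [at_ne h1, map_one]
      exact Commute.one_left _
  · by_cases h1 : t false = u
    · rw [at_ne (u := v) (w := t false) (fun h2 => huv (h1.symm.trans h2)), map_one]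
      exact Commute.one_right _
    · rw [at_ne h1, map_one]
      exact Commute.one_left _
  · exact Commute.one_left _

/-- The action of a vertex group (by inverses of the right action). -/
noncomputable def act (ht : ∀ i, t i ≠ x) (u : V) : G u →* Function.End (FF G t × G x) where
  toFun g := fun p => (p.1 * (out t s p.2 g)⁻¹, p.2 * (at' g x)⁻¹)
  map_one' := by
    funext p
    rw [out_one, at_one]
    simp only [inv_one, mul_one]
    rfl
  map_mul' g h := by
    funext p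
    show (p.1 * (out t s p.2 (g * h))⁻¹, p.2 * (at' (g * h) x)⁻¹) =
      ((p.1 * (out t s p.2 h)⁻¹) * (out t s (p.2 * (at' h x)⁻¹) g)⁻¹,
        (p.2 * (at' h x)⁻¹) * (at' g x)⁻¹)
    by_cases hu : u = x
    · subst hu
      rw [out_ne t s ht, out_ne t s ht, out_ne t s ht, at_mul]
      simp [mul_assoc]
    · rw [at_ne (fun h => hu h.symm), at_ne (fun h => hu h.symm), at_ne (fun h => hu h.symm),
        out_mul]
      simp [mul_assoc]

theorem act_apply (ht : ∀ i, t i ≠ x) (u : V) (g : G u) (p : FF G t × G x) :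
    (act t s ht u).toHomPerm g p = (p.1 * (out t s p.2 g)⁻¹, p.2 * (at' g x)⁻¹) := rfl

theorem act_comm (ht : ∀ i, t i ≠ x) (hx : ∀ i, ¬ Γ.Adj x (t i)) {u v : V} (huv : Γ.Adj u v)
    (g : G u) (h : G v) :
    Commute ((act t s ht u).toHomPerm g) ((act t s ht v).toHomPerm h) := by
  show (act t s ht u).toHomPerm g * (act t s ht v).toHomPerm h =
    (act t s ht v).toHomPerm h * (act t s ht u).toHomPerm g
  apply Equiv.ext
  intro p
  rw [Equiv.Perm.mul_apply, Equiv.Perm.mul_apply]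
  simp only [act_apply]
  by_cases hu : u = x
  · subst hu
    have hv : ∀ i, t i ≠ v := fun i hi => hx i (by rw [hi]; exact huv)
    rw [out_ne t s hv, out_ne t s ht, out_ne t s ht, out_ne t s hv, at_ne huv.ne]
    simp
  · by_cases hv : v = x
    · subst hv
      have hu' : ∀ i, t i ≠ u := fun i hi => hx i (by rw [hi]; exact huv.symm)
      rw [out_ne t s hu', out_ne t s ht, out_ne t s ht, out_ne t s hu', at_ne huv.ne.symm]
      simp
    · rw [at_ne (fun h => hu h.symm), at_ne (fun h => hv h.symm)]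
      simp only [inv_one, mul_one, mul_assoc]
      congr 2
      rw [← mul_inv_rev, ← mul_inv_rev, (out_comm t s huv.ne p.2 g h).eq]

/-- the machine as a homomorphism -/
noncomputable def theta (ht : ∀ i, t i ≠ x) (hx : ∀ i, ¬ Γ.Adj x (t i)) :
    GraphProduct Γ G →* Equiv.Perm (FF G t × G x) :=
  glift (fun u => (act t s ht u).toHomPerm) (fun _ _ huv g h => act_comm t s ht hx huv g h)

/-- the right action -/
noncomputable def run (ht : ∀ i, t i ≠ x) (hx : ∀ i, ¬ Γ.Adj x (t i)) (γ : GraphProduct Γ G)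
    (p : FF G t × G x) : FF G t × G x := theta t s ht hx γ⁻¹ p

variable (ht : ∀ i, t i ≠ x) (hx : ∀ i, ¬ Γ.Adj x (t i))

theorem run_one (p : FF G t × G x) : run t s ht hx 1 p = p := by
  simp [run]

theorem run_mul (γ δ : GraphProduct Γ G) (p : FF G t × G x) :
    run t s ht hx (γ * δ) p = run t s ht hx δ (run t s ht hx γ p) := by
  unfold run
  rw [mul_inv_rev, map_mul, Equiv.Perm.mul_apply]

theorem run_gof {u : V} (g : G u) (f : FF G t) (σ : G x) :
    run t s ht hx (ofVertex Γ G u g) (f, σ) = (f * out t s σ g, σ * at' g x) := by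
  unfold run theta
  rw [← map_inv, glift_gof, act_apply, out_inv, inv_inv]
  congr 2
  rw [eq_comm, eq_inv_iff_mul_eq_one, ← at_mul, mul_inv_cancel, at_one]

theorem run_inv {γ : GraphProduct Γ G} {c : FF G t} (h : ∀ f, run t s ht hx γ (f, 1) = (f * c, 1))
    (f : FF G t) : run t s ht hx γ⁻¹ (f, 1) = (f * c⁻¹, 1) := by
  have h1 := h (f * c⁻¹)
  rw [inv_mul_cancel_right] at h1
  rw [← h1, ← run_mul, mul_inv_cancel, run_one]

theorem run_pow {γ : GraphProduct Γ G} {c : FF G t} (h : ∀ f, run t s ht hx γ (f, 1) = (f * c, 1)) (n : ℕ)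
    (f : FF G t) : run t s ht hx (γ ^ n) (f, 1) = (f * c ^ n, 1) := by
  induction n with
  | zero => rw [pow_zero, pow_zero, run_one, mul_one]
  | succ n ih => rw [pow_succ, run_mul, ih, h, pow_succ, mul_assoc]

/-- **One factor lemma.** An element of `⟨Λ⟩`, where `Λ` misses one of the three vertices of the
machine, changes the first component by an element of one factor. -/
theorem run_sub {Λ : Set V} (hΛ : ¬ (x ∈ Λ ∧ t true ∈ Λ ∧ t false ∈ Λ)) (γ : GraphProduct Γ G)
    (hγ : γ ∈ vertexSubgroup Γ G Λ) (p : FF G t × G x) :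
    ∃ (i : Bool) (m : G (t i)), (run t s ht hx γ p).1 = p.1 * fof G t i m := by
  by_cases h1 : x ∈ Λ
  · by_cases h2 : t true ∈ Λ
    · have h3 : t false ∉ Λ := fun h => hΛ ⟨h1, h2, h⟩
      refine ⟨true, ?_⟩
      refine sub_induction (P := fun γ => ∃ m : G (t true),
        (run t s ht hx γ p).1 = p.1 * fof G t true m) ⟨1, by rw [run_one]; simp⟩ ?_ γ hγ
      rintro γ u g hu ⟨m, hm⟩
      rw [run_mul]
      have h4 : run t s ht hx γ p = ((run t s ht hx γ p).1, (run t s ht hx γ p).2) := rfl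
      rw [h4, run_gof, hm]
      unfold out
      split_ifs
      · exact ⟨m * at' g (t true), by rw [map_mul, mul_assoc]⟩
      · refine ⟨m, ?_⟩
        rw [at_ne (fun h => h3 (by rw [h]; exact hu)), map_one, mul_one]
      · exact ⟨m, by rw [mul_one]⟩
    · refine ⟨false, ?_⟩
      refine sub_induction (P := fun γ => ∃ m : G (t false),
        (run t s ht hx γ p).1 = p.1 * fof G t false m) ⟨1, by rw [run_one]; simp⟩ ?_ γ hγ
      rintro γ u g hu ⟨m, hm⟩
      rw [run_mul]
      have h4 : run t s ht hx γ p = ((run t s ht hx γ p).1, (run t s ht hx γ p).2) := rfl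
      rw [h4, run_gof, hm]
      unfold out
      split_ifs
      · refine ⟨m, ?_⟩
        rw [at_ne (fun h => h2 (by rw [h]; exact hu)), map_one, mul_one]
      · exact ⟨m * at' g (t false), by rw [map_mul, mul_assoc]⟩
      · exact ⟨m, by rw [mul_one]⟩
  · by_cases h5 : p.2 = 1
    · refine ⟨true, ?_⟩
      have := sub_induction (P := fun γ => ∃ m : G (t true),
        (run t s ht hx γ p) = (p.1 * fof G t true m, p.2)) ⟨1, by rw [run_one]; simp⟩ (by
          rintro γ u g hu ⟨m, hm⟩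
          rw [run_mul, hm, run_gof, at_ne (fun h => h1 (by rw [h]; exact hu)), mul_one]
          refine ⟨m * at' g (t true), ?_⟩
          unfold out
          rw [if_pos h5, map_mul, mul_assoc]) γ hγ
      obtain ⟨m, hm⟩ := this
      exact ⟨m, by rw [hm]⟩
    · refine ⟨false, ?_⟩
      have := sub_induction (P := fun γ => ∃ m : G (t false),
        (run t s ht hx γ p) = (p.1 * fof G t false m, p.2)) ⟨1, by rw [run_one]; simp⟩ (by
          rintro γ u g hu ⟨m, hm⟩
          rw [run_mul, hm, run_gof, at_ne (fun h => h1 (by rw [h]; exact hu)), mul_one]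
          unfold out
          rw [if_neg h5]
          split_ifs
          · exact ⟨m * at' g (t false), by rw [map_mul, mul_assoc]⟩
          · exact ⟨m, by rw [mul_one]⟩) γ hγ
      obtain ⟨m, hm⟩ := this
      exact ⟨m, by rw [hm]⟩

/-- the gauge -/
noncomputable def gauge (γ : GraphProduct Γ G) : FF G t := (run t s ht hx γ (1, 1)).1

/-- **Gauge lemma.** -/
theorem gauge_le {S : Set (GraphProduct Γ G)}
    (hS : ∀ γ ∈ S, ∃ Λ : Set V, ¬ (x ∈ Λ ∧ t true ∈ Λ ∧ t false ∈ Λ) ∧ γ ∈ vertexSubgroup Γ G Λ)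
    {n : ℕ} {g h : GraphProduct Γ G} (hl : Len S n (g⁻¹ * h)) :
    nrm ((gauge t s ht hx g)⁻¹ * gauge t s ht hx h) ≤ n := by
  obtain ⟨l, h1, h2, h3⟩ := hl
  refine le_trans ?_ h3
  have h4 : h = g * l.prod := by rw [h2]; group
  clear h2 h3
  subst h4
  induction l generalizing g with
  | nil =>
    rw [List.prod_nil, mul_one, inv_mul_cancel, nrm_one]
    simp
  | cons y l ih =>
    have h5 := ih (g := g * y) (fun z hz => h1 z (List.mem_cons_of_mem _ hz))
    obtain ⟨Λ, hΛ, hy⟩ := hS y (h1 y (by simp))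
    obtain ⟨i, m, hm⟩ := run_sub t s ht hx hΛ y hy (run t s ht hx g (1, 1))
    have h6 : gauge t s ht hx (g * y) = gauge t s ht hx g * fof G t i m := by
      unfold gauge
      rw [run_mul, hm]
    have h7 : (gauge t s ht hx g)⁻¹ * gauge t s ht hx (g * (y :: l).prod) =
        fof G t i m * ((gauge t s ht hx (g * y))⁻¹ * gauge t s ht hx (g * y * l.prod)) := by
      rw [h6, List.prod_cons, ← mul_assoc g y]
      group
    rw [h7, List.length_cons]
    refine le_trans (nrm_of_mul (M := fun i : Bool => G (t i)) m _) ?_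
    omega

end Machine

theorem two_seq {J c C : ℝ} (hc : 0 < c) (α γ : ℕ → ℝ) (h0 : α 0 = γ 0)
    (hγ : ∀ n, |γ (n + 1) - γ n| ≤ J)
    (h1 : ∀ n k : ℕ, c * n - C ≤ |α n - γ k|) (h2 : ∀ n k : ℕ, c * k - C ≤ |α n - γ k|)
    {N : ℕ} (hN : J < c * N - C) (hp : α 0 < α N) (hq : γ 0 < γ N) : False := by
  have hk : ∀ k : ℕ, N ≤ k → J < c * k - C := by
    intro k hk
    have : (N : ℝ) ≤ k := by exact_mod_cast hk
    nlinarith
  have h3 : ∀ k : ℕ, N ≤ k → γ 0 < γ k ∧ c * k - C ≤ γ k - γ 0 := by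
    intro k hk'
    induction k, hk' using Nat.le_induction with
    | base =>
      refine ⟨hq, ?_⟩
      have h4 := h2 0 N
      rw [h0, abs_sub_comm, abs_of_pos (by linarith)] at h4
      exact h4
    | succ k hk' ih =>
      have h5 := hγ k
      have h6 := hk k hk'
      have h7 := (abs_le.mp h5).1
      have h8 : γ 0 < γ (k + 1) := by linarith [ih.2]
      refine ⟨h8, ?_⟩
      have h4 := h2 0 (k + 1)
      rw [h0, abs_sub_comm, abs_of_pos (by linarith)] at h4
      exact_mod_cast h4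
  have h4 : ∃ k : ℕ, α N ≤ γ k := by
    obtain ⟨k, hk'⟩ := exists_nat_ge ((α N - γ 0 + C) / c)
    refine ⟨max k N, ?_⟩
    have h5 := (h3 (max k N) (le_max_right _ _)).2
    have h6 : (k : ℝ) ≤ ((max k N : ℕ) : ℝ) := by exact_mod_cast le_max_left _ _
    rw [div_le_iff₀ hc] at hk'
    nlinarith
  classical
  have h5 := Nat.find_spec h4
  have h6 : Nat.find h4 ≠ 0 := by
    intro h
    rw [h] at h5
    linarith
  obtain ⟨m, hm⟩ := Nat.exists_eq_succ_of_ne_zero h6
  have h7 : ¬ (α N ≤ γ m) := Nat.find_min h4 (by omega)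
  rw [hm] at h5
  have h8 := h1 N (m + 1)
  have h9 := (abs_le.mp (hγ m)).2
  have h10 : |α N - γ (m + 1)| ≤ J := by
    rw [abs_sub_comm, abs_of_nonneg (by
      have : α N ≤ γ (m + 1) := h5
      linarith)]
    linarith [not_le.mp h7]
  linarith

theorem three_seq {J c C : ℝ} (hc : 0 < c) (α : Fin 3 → ℕ → ℝ) (h0 : ∀ i j, α i 0 = α j 0)
    (hJ : ∀ i n, |α i (n + 1) - α i n| ≤ J)
    (h1 : ∀ i j, i ≠ j → ∀ n k : ℕ, c * n - C ≤ |α i n - α j k|) : False := by
  obtain ⟨N, hN⟩ := exists_nat_gt ((J + C) / c)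
  have hN' : J < c * N - C := by
    rw [div_lt_iff₀ hc] at hN
    linarith
  have hJ0 : 0 ≤ J := (abs_nonneg _).trans (hJ 0 0)
  have hne : ∀ i j : Fin 3, i ≠ j → α i 0 ≠ α i N := by
    intro i j hij h
    have h2 := h1 i j hij N 0
    rw [← h, h0 i j, sub_self, abs_zero] at h2
    linarith
  have hpos : ∀ i j : Fin 3, i ≠ j → α i 0 < α i N → α j 0 < α j N → False := by
    intro i j hij hi hj
    refine two_seq hc (α i) (α j) (h0 i j) (hJ j) (h1 i j hij) ?_ hN' hi hj
    intro n k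
    rw [abs_sub_comm]
    exact h1 j i hij.symm k n
  have hneg : ∀ i j : Fin 3, i ≠ j → α i N < α i 0 → α j N < α j 0 → False := by
    intro i j hij hi hj
    refine two_seq hc (fun n => - α i n) (fun n => - α j n) (by rw [h0 i j])
      (fun n => ?_) (fun n k => ?_) (fun n k => ?_) hN' (by simpa using hi) (by simpa using hj)
    · have := hJ j n
      rw [abs_sub_comm] at this
      convert this using 2
      ring
    · have := h1 i j hij n k
      rw [abs_sub_comm] at this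
      convert this using 2
      ring
    · have := h1 j i hij.symm k n
      convert this using 2
      ring
  have d01 : (0 : Fin 3) ≠ 1 := by decide
  have d02 : (0 : Fin 3) ≠ 2 := by decide
  have d12 : (1 : Fin 3) ≠ 2 := by decide
  rcases lt_or_gt_of_ne (hne 0 1 d01) with a0 | a0 <;>
  rcases lt_or_gt_of_ne (hne 1 2 d12) with a1 | a1 <;>
  rcases lt_or_gt_of_ne (hne 2 1 d12.symm) with a2 | a2
  · exact hpos 0 1 d01 a0 a1
  · exact hpos 0 1 d01 a0 a1
  · exact hpos 0 2 d02 a0 a2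
  · exact hneg 1 2 d12 a1 a2
  · exact hpos 1 2 d12 a1 a2
  · exact hneg 0 2 d02 a0 a2
  · exact hneg 0 1 d01 a0 a1
  · exact hneg 0 1 d01 a0 a1

theorem not_quasiLine {H : Type} [Group H] {S : Set H} (hS : ∀ s ∈ S, s⁻¹ ∈ S) (W : Fin 3 → H)
    (K : ℕ) (hK : ∀ i, Len S K (W i))
    (hd : ∀ i j, i ≠ j → ∀ n k m : ℕ, Len S m ((W i ^ n)⁻¹ * W j ^ k) → 2 * n ≤ m + 1) :
    ¬ QuasiLine (cayley S) := by
  rintro ⟨hc, f, L, C, hL, hC, hf, _⟩
  have hL0 : 0 < L := by linarith
  refine three_seq (J := L * K + C) (c := 2 / L) (C := 1 / L + C) (by positivity)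
    (fun i n => f (W i ^ n)) (fun i j => by simp) ?_ ?_
  · intro i n
    have h1 := (hf (W i ^ (n + 1)) (W i ^ n)).2
    have h2 : (cayley S).dist (W i ^ (n + 1)) (W i ^ n) ≤ K := by
      apply cay_dist_le
      have h3 : (W i ^ (n + 1))⁻¹ * W i ^ n = (W i)⁻¹ := by
        rw [pow_succ]
        group
      rw [h3]
      exact (hK i).inv hS
    have h4 : ((cayley S).dist (W i ^ (n + 1)) (W i ^ n) : ℝ) ≤ K := by exact_mod_cast h2
    have h5 : L * ((cayley S).dist (W i ^ (n + 1)) (W i ^ n) : ℝ) ≤ L * K :=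
      mul_le_mul_of_nonneg_left h4 hL0.le
    show |f (W i ^ (n + 1)) - f (W i ^ n)| ≤ L * K + C
    linarith
  · intro i j hij n k
    have h1 := (hf (W i ^ n) (W j ^ k)).1
    have h2 := hd i j hij n k _ (len_dist hS hc (W i ^ n) (W j ^ k))
    have h3 : 2 * (n : ℝ) ≤ ((cayley S).dist (W i ^ n) (W j ^ k) : ℝ) + 1 := by exact_mod_cast h2
    have h4 : 1 / L * (2 * (n : ℝ)) ≤ 1 / L * (((cayley S).dist (W i ^ n) (W j ^ k) : ℝ) + 1) :=
      mul_le_mul_of_nonneg_left h3 (by positivity)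
    show 2 / L * (n : ℝ) - (1 / L + C) ≤ |f (W i ^ n) - f (W j ^ k)|
    have h5 : 2 / L * (n : ℝ) = 1 / L * (2 * (n : ℝ)) := by ring
    rw [h5]
    linarith

theorem bounded_not_quasiLine {H : Type} [Group H] {S : Set H} (D : ℕ) (hD : ∀ x, Len S D x) :
    ¬ QuasiLine (cayley S) := by
  rintro ⟨_, f, L, C, hL, hC, hf, ho⟩
  obtain ⟨g, hg⟩ := ho (f 1 + L * D + 2 * C + 1)
  have h1 := (hf g 1).2
  have h2 : ((cayley S).dist g 1 : ℝ) ≤ D := by exact_mod_cast cay_dist_le (hD (g⁻¹ * 1))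
  have h3 : L * ((cayley S).dist g 1 : ℝ) ≤ L * D := mul_le_mul_of_nonneg_left h2 (by linarith)
  have h4 := (abs_le.mp hg).1
  have h5 := (abs_le.mp h1).2
  linarith

section Machine

variable {V : Type} {Γ : SimpleGraph V} {G : V → Type} [∀ u, Group (G u)]
variable (t : Bool → V) {x : V} (s : G x)
variable (ht : ∀ i, t i ≠ x) (hx : ∀ i, ¬ Γ.Adj x (t i))

theorem ray_bound {S : Set (GraphProduct Γ G)} (hSi : ∀ γ ∈ S, γ⁻¹ ∈ S)
    (hS : ∀ γ ∈ S, ∃ Λ : Set V, ¬ (x ∈ Λ ∧ t true ∈ Λ ∧ t false ∈ Λ) ∧ γ ∈ vertexSubgroup Γ G Λ)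
    {w v : GraphProduct Γ G} {c : FF G t} (hc : ∀ n, nrm (c ^ n) = 2 * n)
    (hw : ∀ f, run t s ht hx w (f, 1) = (f * c, 1)) {i : Bool} {m : G (t i)}
    (hv : ∀ f, run t s ht hx v (f, 1) = (f * fof G t i m, 1)) {n k m' : ℕ}
    (hl : Len S m' ((w ^ n)⁻¹ * v ^ k)) : 2 * n ≤ m' + 1 := by
  have h1 := hl.inv hSi
  rw [mul_inv_rev, inv_inv] at h1
  have h2 := gauge_le t s ht hx hS h1
  have h3 : gauge t s ht hx (w ^ n) = c ^ n := by
    unfold gauge
    rw [run_pow t s ht hx hw, one_mul]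
  have h4 : gauge t s ht hx (v ^ k) = fof G t i (m ^ k) := by
    unfold gauge
    rw [run_pow t s ht hx hv, one_mul, map_pow]
  rw [h3, h4] at h2
  have h5 := nrm_of_mul (M := fun i : Bool => G (t i)) (m ^ k) ((fof G t i (m ^ k))⁻¹ * c ^ n)
  have h6 : (CoprodI.of (M := fun i : Bool => G (t i)) (m ^ k) *
      ((fof G t i (m ^ k))⁻¹ * c ^ n)) = c ^ n := by
    show fof G t i (m ^ k) * ((fof G t i (m ^ k))⁻¹ * c ^ n) = c ^ n
    rw [mul_inv_cancel_left]
  rw [h6, hc] at h5
  omega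

theorem ray_bound_self {S : Set (GraphProduct Γ G)}
    (hS : ∀ γ ∈ S, ∃ Λ : Set V, ¬ (x ∈ Λ ∧ t true ∈ Λ ∧ t false ∈ Λ) ∧ γ ∈ vertexSubgroup Γ G Λ)
    {w : GraphProduct Γ G} {c : FF G t} (hc : ∀ n, nrm (c ^ n) = 2 * n)
    (hw : ∀ f, run t s ht hx w (f, 1) = (f * c, 1)) {n k m' : ℕ}
    (hl : Len S m' ((w⁻¹ ^ n)⁻¹ * w ^ k)) : 2 * n ≤ m' + 1 := by
  have h2 := gauge_le t s ht hx hS hl
  have h3 : gauge t s ht hx (w⁻¹ ^ n) = c⁻¹ ^ n := by
    unfold gauge
    rw [run_pow t s ht hx (run_inv t s ht hx hw), one_mul]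
  have h4 : gauge t s ht hx (w ^ k) = c ^ k := by
    unfold gauge
    rw [run_pow t s ht hx hw, one_mul]
  have h5 : (c⁻¹ ^ n)⁻¹ * c ^ k = c ^ (n + k) := by
    rw [inv_pow, inv_inv, pow_add]
  rw [h3, h4, h5, hc] at h2
  omega

/-- the standard word of the machine -/
def wd (Γ : SimpleGraph V) (t : Bool → V) (s : G x) (α : G (t true)) (β : G (t false)) :
    GraphProduct Γ G :=
  ofVertex Γ G (t true) α * ofVertex Γ G x s * ofVertex Γ G (t false) β * ofVertex Γ G x s⁻¹

theorem run_wd (t' : Bool → V) (ht' : ∀ i, t' i ≠ x) (s' : G x) (α : G (t' true))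
    (β : G (t' false)) (f : FF G t) :
    run t s ht hx (wd Γ t' s' α β) (f, 1) = (f * (out t s 1 α * out t s s' β), 1) := by
  unfold wd
  rw [run_mul, run_mul, run_mul, run_gof, run_gof, run_gof, run_gof, out_ne t s ht, out_ne t s ht,
    at_ne (ht' true).symm, at_ne (ht' false).symm, at_same, at_same]
  simp [mul_assoc]

theorem run_wd_self (hs : s ≠ 1) (α : G (t true)) (β : G (t false)) (f : FF G t) :
    run t s ht hx (wd Γ t s α β) (f, 1) = (f * (fof G t true α * fof G t false β), 1) := by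
  rw [run_wd t s ht hx t ht]
  unfold out
  rw [if_pos rfl, if_neg hs, if_pos rfl, at_same, at_same]

include ht hx in
theorem two_machines {S : Set (GraphProduct Γ G)} (hSi : ∀ γ ∈ S, γ⁻¹ ∈ S)
    (hS : ∀ γ ∈ S, ∃ Λ : Set V, ¬ (x ∈ Λ ∧ t true ∈ Λ ∧ t false ∈ Λ) ∧ γ ∈ vertexSubgroup Γ G Λ)
    (hS1 : ∀ u (g : G u), ofVertex Γ G u g ∈ S)
    (t' : Bool → V) (s' : G x) (ht' : ∀ i, t' i ≠ x) (hx' : ∀ i, ¬ Γ.Adj x (t' i))
    (hS' : ∀ γ ∈ S, ∃ Λ : Set V, ¬ (x ∈ Λ ∧ t' true ∈ Λ ∧ t' false ∈ Λ) ∧ γ ∈ vertexSubgroup Γ G Λ)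
    (hs : s ≠ 1) (hs' : s' ≠ 1) {α : G (t true)} {β : G (t false)} (hα : α ≠ 1) (hβ : β ≠ 1)
    {α' : G (t' true)} {β' : G (t' false)} (hα' : α' ≠ 1) (hβ' : β' ≠ 1)
    {m : G (t true)} (hm : out t s 1 α' * out t s s' β' = fof G t true m)
    {m' : G (t' true)} (hm' : out t' s' 1 α * out t' s' s β = fof G t' true m') :
    ¬ QuasiLine (cayley S) := by
  have hlen : ∀ (t : Bool → V) (s : G x) (α : G (t true)) (β : G (t false)),
      Len S 4 (wd Γ t s α β) := by
    intro t s α β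
    exact (((Len.of_mem (hS1 _ _)).mul (Len.of_mem (hS1 _ _))).mul (Len.of_mem (hS1 _ _))).mul
      (Len.of_mem (hS1 _ _))
  have hc : ∀ (t : Bool → V) (α : G (t true)) (β : G (t false)), α ≠ 1 → β ≠ 1 → ∀ n,
      nrm ((fof G t true α * fof G t false β) ^ n) = 2 * n := by
    intro t α β hα hβ n
    exact nrm_pow (M := fun i : Bool => G (t i)) (by decide : true ≠ false) hα hβ n
  have hc' : ∀ (t : Bool → V) (α : G (t true)) (β : G (t false)), α ≠ 1 → β ≠ 1 → ∀ n,
      nrm ((fof G t true α * fof G t false β)⁻¹ ^ n) = 2 * n := by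
    intro t α β hα hβ n
    have h1 : (fof G t true α * fof G t false β)⁻¹ = fof G t false β⁻¹ * fof G t true α⁻¹ := by
      rw [mul_inv_rev, map_inv, map_inv]
    rw [h1]
    exact nrm_pow (M := fun i : Bool => G (t i)) (by decide : false ≠ true)
      (inv_ne_one.mpr hβ) (inv_ne_one.mpr hα) n
  have r11 := run_wd_self (Γ := Γ) t s ht hx hs α β
  have r11' := run_inv t s ht hx r11
  have r12 : ∀ f, run t s ht hx (wd Γ t' s' α' β') (f, 1) = (f * fof G t true m, 1) := by
    intro f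
    rw [run_wd t s ht hx t' ht', hm]
  have r22 := run_wd_self (Γ := Γ) t' s' ht' hx' hs' α' β'
  have r21 : ∀ f, run t' s' ht' hx' (wd Γ t s α β) (f, 1) = (f * fof G t' true m', 1) := by
    intro f
    rw [run_wd t' s' ht' hx' t ht, hm']
  have r21' : ∀ f, run t' s' ht' hx' (wd Γ t s α β)⁻¹ (f, 1) = (f * fof G t' true m'⁻¹, 1) := by
    intro f
    rw [map_inv]
    exact run_inv t' s' ht' hx' r21 f
  refine not_quasiLine hSi ![wd Γ t s α β, (wd Γ t s α β)⁻¹, wd Γ t' s' α' β'] 4 ?_ ?_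
  · intro i
    fin_cases i
    · exact hlen _ _ _ _
    · exact (hlen _ _ _ _).inv hSi
    · exact hlen _ _ _ _
  · intro i j hij n k l hl
    fin_cases i <;> fin_cases j
    · exact absurd rfl hij
    · refine ray_bound_self t s ht hx hS (hc' t α β hα hβ) r11' (n := n) (k := k) ?_
      rw [inv_inv]
      exact hl
    · exact ray_bound t s ht hx hSi hS (hc t α β hα hβ) r11 r12 hl
    · exact ray_bound_self t s ht hx hS (hc t α β hα hβ) r11 hl
    · exact absurd rfl hij
    · exact ray_bound t s ht hx hSi hS (hc' t α β hα hβ) r11' r12 hl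
    · exact ray_bound t' s' ht' hx' hSi hS' (hc t' α' β' hα' hβ') r22 r21 hl
    · exact ray_bound t' s' ht' hx' hSi hS' (hc t' α' β' hα' hβ') r22 r21' hl
    · exact absurd rfl hij

end Machine

section Sq

variable {V : Type} (Γ : SimpleGraph V)

/-- `a b c d` span an induced square (an induced 4-cycle), with opposite pairs `a, c`
and `b, d`. -/
def IsSq (a b c d : V) : Prop :=
  Γ.Adj a b ∧ Γ.Adj b c ∧ Γ.Adj c d ∧ Γ.Adj d a ∧ a ≠ c ∧ b ≠ d ∧ ¬ Γ.Adj a c ∧ ¬ Γ.Adj b d

/-- square-complete (induced) subgraphs -/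
def SqComplete (Λ : Set V) : Prop :=
  ∀ a b c d, IsSq Γ a b c d → a ∈ Λ → c ∈ Λ → b ∈ Λ ∧ d ∈ Λ

/-- `Λ` contains an induced square -/
def HasSq (Λ : Set V) : Prop :=
  ∃ a b c d, IsSq Γ a b c d ∧ a ∈ Λ ∧ b ∈ Λ ∧ c ∈ Λ ∧ d ∈ Λ

/-- minsquare subgraphs -/
def Minsq (Λ : Set V) : Prop := Minimal (fun Λ' => SqComplete Γ Λ' ∧ HasSq Γ Λ') Λ

variable (G : V → Type) [∀ u, Group (G u)]

/-- the generating set of the electrification -/
def elecGens : Set (GraphProduct Γ G) :=
  {γ | (∃ (u : V) (g : G u), ofVertex Γ G u g = γ) ∨ ∃ Λ : Set V, Minsq Γ Λ ∧ γ ∈ vertexSubgroup Γ G Λ}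

variable {Γ G}

theorem IsSq.rot {a b c d : V} (h : IsSq Γ a b c d) : IsSq Γ b c d a :=
  ⟨h.2.1, h.2.2.1, h.2.2.2.1, h.1, h.2.2.2.2.2.1, h.2.2.2.2.1.symm, h.2.2.2.2.2.2.2,
    fun h' => h.2.2.2.2.2.2.1 h'.symm⟩

theorem SE_inv : ∀ γ ∈ elecGens Γ G, γ⁻¹ ∈ elecGens Γ G := by
  rintro γ (⟨u, g, rfl⟩ | ⟨Λ, hΛ, hγ⟩)
  · exact Or.inl ⟨u, g⁻¹, by rw [map_inv]⟩
  · exact Or.inr ⟨Λ, hΛ, inv_mem hγ⟩

theorem SE_sub {x y z : V} (hxy : x ≠ y)
    (hno : ∀ Λ : Set V, Minsq Γ Λ → ¬ (x ∈ Λ ∧ y ∈ Λ ∧ z ∈ Λ)) :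
    ∀ γ ∈ elecGens Γ G, ∃ Λ : Set V, ¬ (x ∈ Λ ∧ y ∈ Λ ∧ z ∈ Λ) ∧ γ ∈ vertexSubgroup Γ G Λ := by
  rintro γ (⟨u, g, rfl⟩ | ⟨Λ, hΛ, hγ⟩)
  · refine ⟨{u}, ?_, Subgroup.subset_closure ⟨u, rfl, g, rfl⟩⟩
    rintro ⟨h1, h2, _⟩
    exact hxy (h1.trans h2.symm)
  · exact ⟨Λ, hno Λ hΛ, hγ⟩

/-- Three vertices. -/
theorem case3 [∀ u, Nontrivial (G u)] {x b x' : V} (hb : b ≠ x) (hx' : x' ≠ x) (hbx : b ≠ x')
    (h1 : ¬ Γ.Adj x b) (h2 : ¬ Γ.Adj x x')
    (hno : ∀ Λ : Set V, Minsq Γ Λ → ¬ (x ∈ Λ ∧ b ∈ Λ ∧ x' ∈ Λ)) :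
    ¬ QuasiLine (cayley (elecGens Γ G)) := by
  obtain ⟨s, hs⟩ := exists_ne (1 : G x)
  obtain ⟨β, hβ⟩ := exists_ne (1 : G b)
  obtain ⟨ξ, hξ⟩ := exists_ne (1 : G x')
  refine two_machines (G := G) (Γ := Γ) (x := x) (fun i => cond i b x') s ?_ ?_ SE_inv ?_
    (fun u g => Or.inl ⟨u, g, rfl⟩) (fun i => cond i x' b) s ?_ ?_ ?_ hs hs
    (α := β) (β := ξ) (α' := ξ) (β' := β) hβ hξ hξ hβ (m := 1) ?_ (m' := 1) ?_
  · intro i; cases i <;> assumption
  · intro i; cases i <;> assumption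
  · exact SE_sub hb.symm hno
  · intro i; cases i <;> assumption
  · intro i; cases i <;> assumption
  · exact SE_sub hx'.symm (fun Λ hΛ h => hno Λ hΛ ⟨h.1, h.2.2, h.2.1⟩)
  · unfold out
    rw [if_pos rfl, if_neg hs, if_pos rfl]
    have e1 : at' (u := x') ξ ((fun i : Bool => cond i b x') true) = 1 := at_ne hbx ξ
    have e2 : at' (u := b) β ((fun i : Bool => cond i b x') false) = 1 := at_ne hbx.symm β
    rw [e1, e2]
    simp
  · unfold out
    rw [if_pos rfl, if_neg hs, if_pos rfl]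
    have e1 : at' (u := b) β ((fun i : Bool => cond i x' b) true) = 1 := at_ne hbx.symm β
    have e2 : at' (u := x') ξ ((fun i : Bool => cond i x' b) false) = 1 := at_ne hbx ξ
    rw [e1, e2]
    simp

/-- Two vertices, one of the groups having at least three elements. -/
theorem case2 [∀ u, Nontrivial (G u)] {x v : V} (hv : v ≠ x) (h1 : ¬ Γ.Adj x v)
    {c c' : G x} (hc : c ≠ 1) (hc' : c' ≠ 1) (hcc : c ≠ c')
    (hno : ∀ Λ : Set V, Minsq Γ Λ → ¬ (x ∈ Λ ∧ v ∈ Λ ∧ v ∈ Λ)) :
    ¬ QuasiLine (cayley (elecGens Γ G)) := by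
  obtain ⟨a, ha⟩ := exists_ne (1 : G v)
  refine two_machines (G := G) (Γ := Γ) (x := x) (fun _ => v) c (fun _ => hv) (fun _ => h1)
    SE_inv (SE_sub hv.symm hno)
    (fun u g => Or.inl ⟨u, g, rfl⟩) (fun _ => v) c' (fun _ => hv) (fun _ => h1)
    (SE_sub hv.symm hno) hc hc'
    (α := a) (β := a) (α' := a) (β' := a) ha ha ha ha (m := a) ?_ (m' := a) ?_
  · unfold out
    rw [if_pos rfl, if_neg hc', if_neg hcc.symm]
    rw [at_same (u := v)]
    simp
  · unfold out
    rw [if_pos rfl, if_neg hc, if_neg hcc]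
    rw [at_same (u := v)]
    simp

theorem bounded_aux {Λ : Set V} (hΛ : ∀ γ ∈ vertexSubgroup Γ G Λ, Len (elecGens Γ G) 1 γ)
    (hadj : ∀ b, b ∉ Λ → ∀ v, v ≠ b → Γ.Adj b v) (l : List V) :
    (∀ b ∈ l, b ∉ Λ) → ∀ γ ∈ vertexSubgroup Γ G (Λ ∪ {v | v ∈ l}), Len (elecGens Γ G) (1 + l.length) γ := by
  induction l with
  | nil =>
    intro _ γ hγ
    simp only [List.not_mem_nil, Set.ofPred_false, Set.union_empty] at hγ
    simpa using hΛ γ hγ
  | cons b l ih =>
    intro hl γ hγ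
    have hb : b ∉ Λ := hl b (by simp)
    have ih' := ih (fun z hz => hl z (List.mem_cons_of_mem _ hz))
    have key : ∃ δ ∈ vertexSubgroup Γ G (Λ ∪ {v | v ∈ l}), ∃ g : G b, γ = δ * ofVertex Γ G b g := by
      refine sub_induction (P := fun γ => ∃ δ ∈ vertexSubgroup Γ G (Λ ∪ {v | v ∈ l}), ∃ g : G b,
        γ = δ * ofVertex Γ G b g) ⟨1, one_mem _, 1, by simp⟩ ?_ γ hγ
      rintro γ u g' hu ⟨δ, hδ, g, rfl⟩
      by_cases hub : u = b
      · subst hub
        exact ⟨δ, hδ, g * g', by rw [map_mul, mul_assoc]⟩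
      · refine ⟨δ * ofVertex Γ G u g', mul_mem hδ (Subgroup.subset_closure ⟨u, ?_, g', rfl⟩), g, ?_⟩
        · rcases hu with hu | hu
          · exact Or.inl hu
          · simp only [Set.mem_ofPred_eq, List.mem_cons] at hu
            rcases hu with hu | hu
            · exact absurd hu hub
            · exact Or.inr hu
        · rw [mul_assoc, mul_assoc, (gof_comm (hadj b hb u hub) g g').eq]
    obtain ⟨δ, hδ, g, rfl⟩ := key
    have h1 := (ih' δ hδ).mul (Len.of_mem (S := elecGens Γ G) (x := ofVertex Γ G b g) (Or.inl ⟨b, g, rfl⟩))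
    exact h1.mono (by simp only [List.length_cons]; omega)

theorem bounded [Finite V] {Λ : Set V} (hΛ : ∀ γ ∈ vertexSubgroup Γ G Λ, Len (elecGens Γ G) 1 γ)
    (hadj : ∀ b, b ∉ Λ → ∀ v, v ≠ b → Γ.Adj b v) : ¬ QuasiLine (cayley (elecGens Γ G)) := by
  classical
  have := Fintype.ofFinite V
  refine bounded_not_quasiLine (1 + (Finset.univ.filter (· ∉ Λ)).toList.length) ?_
  intro γ
  refine bounded_aux hΛ hadj _ (fun b hb => by simpa using hb) γ ?_
  have h1 : Λ ∪ {v | v ∈ (Finset.univ.filter (· ∉ Λ)).toList} = Set.univ := by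
    ext v
    simp only [Finset.mem_toList, Finset.mem_filter, Finset.mem_univ, true_and, Set.mem_union,
      Set.mem_ofPred_eq, Set.mem_univ, iff_true]
    exact em _
  rw [h1, sub_univ]
  trivial

/-- If there is an induced square the electrification is not a quasi-line. -/
theorem square_not [Finite V] [∀ u, Nontrivial (G u)] (hsq : ∃ a b c d, IsSq Γ a b c d) :
    ¬ QuasiLine (cayley (elecGens Γ G)) := by
  obtain ⟨Λ1, _, hmin⟩ := exists_minimal_le_of_wellFoundedLT
    (fun Λ' : Set V => SqComplete Γ Λ' ∧ HasSq Γ Λ') Set.univ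
    ⟨fun a b c d _ _ _ => ⟨trivial, trivial⟩, by
      obtain ⟨a, b, c, d, h⟩ := hsq
      exact ⟨a, b, c, d, h, trivial, trivial, trivial, trivial⟩⟩
  have hM : Minsq Γ Λ1 := hmin
  obtain ⟨hcomp, a0, b0, c0, d0, hsq0, ha0, hb0, hc0, hd0⟩ := hmin.prop
  -- every vertex of Λ1 lies in a square of Λ1
  have hU : ∀ x ∈ Λ1, ∃ b c d, IsSq Γ x b c d ∧ x ∈ Λ1 ∧ b ∈ Λ1 ∧ c ∈ Λ1 ∧ d ∈ Λ1 := by
    have h1 : SqComplete Γ {x | ∃ b c d, IsSq Γ x b c d ∧ x ∈ Λ1 ∧ b ∈ Λ1 ∧ c ∈ Λ1 ∧ d ∈ Λ1} ∧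
        HasSq Γ {x | ∃ b c d, IsSq Γ x b c d ∧ x ∈ Λ1 ∧ b ∈ Λ1 ∧ c ∈ Λ1 ∧ d ∈ Λ1} := by
      refine ⟨?_, ?_⟩
      · rintro a b c d h ⟨_, _, _, _, ha, _⟩ ⟨_, _, _, _, hc, _⟩
        obtain ⟨hb, hd⟩ := hcomp a b c d h ha hc
        exact ⟨⟨c, d, a, h.rot, hb, hc, hd, ha⟩, ⟨a, b, c, h.rot.rot.rot, hd, ha, hb, hc⟩⟩
      · exact ⟨a0, b0, c0, d0, hsq0, ⟨b0, c0, d0, hsq0, ha0, hb0, hc0, hd0⟩,
          ⟨c0, d0, a0, hsq0.rot, hb0, hc0, hd0, ha0⟩,
          ⟨d0, a0, b0, hsq0.rot.rot, hc0, hd0, ha0, hb0⟩,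
          ⟨a0, b0, c0, hsq0.rot.rot.rot, hd0, ha0, hb0, hc0⟩⟩
    intro x hx
    have h2 := hmin.le_of_le h1 (fun y hy => by
      obtain ⟨_, _, _, _, hy', _⟩ := hy
      exact hy')
    exact h2 hx
  by_cases hB : ∃ b, b ∉ Λ1 ∧ ∃ x ∈ Λ1, ¬ Γ.Adj x b
  · obtain ⟨b, hb, x, hx, hbx⟩ := hB
    obtain ⟨y, x', y', hsq1, _, hy, hx', hy'⟩ := hU x hx
    refine case3 (x := x) (b := b) (x' := x') (fun h => hb (by rw [h]; exact hx))
      hsq1.2.2.2.2.1.symm (fun h => hb (by rw [h]; exact hx')) hbx hsq1.2.2.2.2.2.2.1 ?_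
    rintro Λ hΛ ⟨h1, h2, h3⟩
    have h4 := hΛ.prop.1 x y x' y' hsq1 h1 h3
    have h5 : SqComplete Γ (Λ ∩ Λ1) ∧ HasSq Γ (Λ ∩ Λ1) := by
      refine ⟨?_, ⟨x, y, x', y', hsq1, ⟨h1, hx⟩, ⟨h4.1, hy⟩, ⟨h3, hx'⟩, ⟨h4.2, hy'⟩⟩⟩
      rintro a b c d h ⟨ha, ha'⟩ ⟨hc, hc'⟩
      obtain ⟨hb1, hd1⟩ := hΛ.prop.1 a b c d h ha hc
      obtain ⟨hb2, hd2⟩ := hcomp a b c d h ha' hc'
      exact ⟨⟨hb1, hb2⟩, ⟨hd1, hd2⟩⟩
    have h6 := hΛ.le_of_le h5 Set.inter_subset_left
    exact hb (h6 h2).2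
  · push Not at hB
    refine bounded (Λ := Λ1) (fun γ hγ => Len.of_mem (Or.inr ⟨Λ1, hM, hγ⟩)) ?_
    intro b hb v hv
    by_cases hv1 : v ∈ Λ1
    · exact (hB b hb v hv1).symm
    · by_contra hbv
      have h1 : IsSq Γ a0 b c0 v :=
        ⟨hB b hb a0 ha0, (hB b hb c0 hc0).symm, hB v hv1 c0 hc0, (hB v hv1 a0 ha0).symm,
          hsq0.2.2.2.2.1, hv.symm, hsq0.2.2.2.2.2.2.1, hbv⟩
      exact hb (hcomp a0 b c0 v h1 ha0 hc0).1

end Sq

/-- infinite virtually cyclic -/
def InfVC (H : Type) [Group H] : Prop :=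
  Infinite H ∧ ∃ C : Subgroup H, IsCyclic C ∧ C.FiniteIndex

theorem len_zpow {H : Type} [Group H] {S : Set H} (hSi : ∀ s ∈ S, s⁻¹ ∈ S) {A : ℕ} {w : H}
    (hA : Len S A w) (k : ℤ) : Len S (A * k.natAbs) (w ^ k) := by
  obtain ⟨m, rfl | rfl⟩ := k.eq_nat_or_neg
  · rw [zpow_natCast, Int.natAbs_natCast]
    exact hA.pow m
  · rw [zpow_neg, zpow_natCast, Int.natAbs_neg, Int.natAbs_natCast]
    exact (hA.pow m).inv hSi

theorem vc_ql {H : Type} [Group H] {S : Set H} (hfin : S.Finite) (hSi : ∀ s ∈ S, s⁻¹ ∈ S)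
    (hgen : ∀ x, ∃ n, Len S n x) (hvc : InfVC H) : QuasiLine (cayley S) := by
  obtain ⟨hinf, C, hcyc, hfi⟩ := hvc
  obtain ⟨w0, hw0⟩ := hcyc.exists_generator
  obtain ⟨w, hwdef⟩ : ∃ w : H, w = (w0 : H) := ⟨_, rfl⟩
  have hC : ∀ c ∈ C, ∃ n : ℤ, w ^ n = c := by
    intro c hc
    obtain ⟨n, hn⟩ := Subgroup.mem_zpowers_iff.mp (hw0 ⟨c, hc⟩)
    refine ⟨n, ?_⟩
    have := congrArg (fun z : C => (z : H)) hn
    simpa [hwdef] using this
  have hwC : ∀ n : ℤ, w ^ n ∈ C := by
    intro n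
    rw [hwdef]
    exact zpow_mem w0.2 n
  have hwinf : Function.Injective (fun n : ℤ => w ^ n) := by
    rw [injective_zpow_iff_not_isOfFinOrder]
    intro h
    have h1 : ((Subgroup.zpowers w : Subgroup H) : Set H).Finite := finite_zpowers.mpr h
    have h2 : (C : Set H).Finite := h1.subset (fun c hc => by
      obtain ⟨n, hn⟩ := hC c hc
      exact Subgroup.mem_zpowers_iff.mpr ⟨n, hn⟩)
    have h3 : Finite C := h2
    have h4 : Finite H := Finite.of_subgroup_quotient C
    exact not_finite H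
  obtain ⟨ρ, hρdef⟩ : ∃ ρ : H → H, ∀ g, ρ g = (Quotient.out (QuotientGroup.mk g⁻¹ : H ⧸ C))⁻¹ :=
    ⟨_, fun _ => rfl⟩
  have hρfin : (Set.range ρ).Finite := by
    have : (Set.range (fun q : H ⧸ C => (Quotient.out q)⁻¹)).Finite := Set.finite_range _
    refine this.subset ?_
    rintro _ ⟨g, rfl⟩
    exact ⟨_, (hρdef g).symm⟩
  have hρ : ∀ g, ∃ n : ℤ, g = w ^ n * ρ g := by
    intro g
    obtain ⟨h, hh⟩ := QuotientGroup.mk_out_eq_mul C g⁻¹
    obtain ⟨n, hn⟩ := hC h h.2
    refine ⟨n, ?_⟩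
    rw [hρdef, hh, hn]
    group
  have hρC : ∀ (k : ℤ) g, ρ (w ^ k * g) = ρ g := by
    intro k g
    rw [hρdef, hρdef, mul_inv_rev, QuotientGroup.mk_mul_of_mem _ (inv_mem (hwC k))]
  choose n hn using hρ
  have hadd : ∀ (k : ℤ) g, n (w ^ k * g) = k + n g := by
    intro k g
    have h1 := hn (w ^ k * g)
    rw [hρC] at h1
    have h2 : w ^ k * g = w ^ (k + n g) * ρ g := by
      rw [zpow_add, mul_assoc, ← hn g]
    rw [h2] at h1
    have h3 := mul_right_cancel h1
    have h4 := hwinf h3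
    rw [h2]
    exact h4.symm
  obtain ⟨M, hM⟩ : ∃ M : ℕ, ∀ r ∈ Set.range ρ, ∀ x ∈ S, (n (r * x)).natAbs ≤ M := by
    have hT : (Set.image2 (fun r x => (n (r * x)).natAbs) (Set.range ρ) S).Finite :=
      Set.Finite.image2 _ hρfin hfin
    obtain ⟨M, hM⟩ := hT.bddAbove
    exact ⟨M, fun r hr x hx => hM ⟨r, hr, x, hx, rfl⟩⟩
  have hstep : ∀ g, ∀ x ∈ S, |n (g * x) - n g| ≤ M := by
    intro g x hx
    have h1 : g * x = w ^ (n g) * (ρ g * x) := by
      rw [← mul_assoc, ← hn g]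
    have h2 := hM (ρ g) ⟨g, rfl⟩ x hx
    rw [h1, hadd, add_sub_cancel_left, Int.abs_eq_natAbs]
    exact_mod_cast h2
  have hup : ∀ (l : List H), (∀ y ∈ l, y ∈ S) → ∀ g, |n (g * l.prod) - n g| ≤ M * l.length := by
    intro l
    induction l with
    | nil => intro _ g; simp
    | cons y l ih =>
      intro hl g
      have h1 := ih (fun z hz => hl z (List.mem_cons_of_mem _ hz)) (g * y)
      have h2 := hstep g y (hl y (by simp))
      rw [List.prod_cons, ← mul_assoc, List.length_cons]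
      have h3 : |n (g * y * l.prod) - n g| ≤
          |n (g * y * l.prod) - n (g * y)| + |n (g * y) - n g| := by
        have h4 : n (g * y * l.prod) - n g =
          (n (g * y * l.prod) - n (g * y)) + (n (g * y) - n g) := by ring
        rw [h4]
        exact abs_add_le _ _
      push_cast
      linarith
  obtain ⟨A, hA⟩ := hgen w
  obtain ⟨B, hB⟩ : ∃ B : ℕ, ∀ r ∈ Set.range ρ, Len S B r := by
    choose L hL using hgen
    obtain ⟨B, hB⟩ := (hρfin.image L).bddAbove
    exact ⟨B, fun r hr => (hL r).mono (hB ⟨r, hr, rfl⟩)⟩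
  have hconn := cay_connected hgen
  have hlow : ∀ g h, (cayley S).dist g h ≤ A * (n h - n g).natAbs + 2 * B := by
    intro g h
    apply cay_dist_le
    have h1 : g⁻¹ * h = ((ρ g)⁻¹ * w ^ (n h - n g)) * ρ h := by
      have h2 : g⁻¹ = (ρ g)⁻¹ * w ^ (- n g) := by
        conv_lhs => rw [hn g]
        rw [mul_inv_rev, zpow_neg]
      have h3 : w ^ (n h - n g) = w ^ (- n g) * w ^ (n h) := by
        rw [← zpow_add]
        congr 1
        ring
      conv_lhs => rw [h2, hn h]
      rw [h3]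
      simp only [mul_assoc]
    rw [h1]
    have h4 := ((hB (ρ g) ⟨g, rfl⟩).inv hSi).mul (len_zpow hSi hA (n h - n g))
    exact (h4.mul (hB (ρ h) ⟨h, rfl⟩)).mono (by omega)
  refine ⟨hconn, fun g => (n g : ℝ), A + M + 1, 2 * B + 1, ?_, by positivity, ?_, ?_⟩
  · have h1 : (0 : ℝ) ≤ A := Nat.cast_nonneg _
    have h2 : (0 : ℝ) ≤ M := Nat.cast_nonneg _
    linarith
  · intro g h
    have h0 : |(n g : ℝ) - n h| = (((n h - n g).natAbs : ℕ) : ℝ) := by
      rw [Nat.cast_natAbs, abs_sub_comm]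
      push_cast
      rfl
    constructor
    · have h1 : ((cayley S).dist g h : ℝ) ≤ A * (((n h - n g).natAbs : ℕ) : ℝ) + 2 * B := by
        exact_mod_cast hlow g h
      rw [h0]
      have hA0 : (0 : ℝ) ≤ A := Nat.cast_nonneg _
      have hM0 : (0 : ℝ) ≤ M := Nat.cast_nonneg _
      have hB0 : (0 : ℝ) ≤ B := Nat.cast_nonneg _
      have hx0 : (0 : ℝ) ≤ (((n h - n g).natAbs : ℕ) : ℝ) := Nat.cast_nonneg _
      have hL : (0 : ℝ) < A + M + 1 := by linarith
      rw [sub_le_iff_le_add, one_div, inv_mul_le_iff₀ hL]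
      nlinarith [mul_nonneg hM0 hx0, mul_nonneg hA0 hB0, mul_nonneg hM0 hB0]
    · obtain ⟨l, h1, h2, h3⟩ := len_dist hSi hconn g h
      have h4 := hup l h1 g
      have h5 : g * l.prod = h := by rw [h2]; group
      rw [h5] at h4
      have h6 : |(n g : ℝ) - n h| ≤ M * (l.length : ℝ) := by
        rw [abs_sub_comm]
        exact_mod_cast h4
      have h7 : (l.length : ℝ) ≤ ((cayley S).dist g h : ℝ) := by exact_mod_cast h3
      have hA0 : (0 : ℝ) ≤ A := Nat.cast_nonneg _
      have hM0 : (0 : ℝ) ≤ M := Nat.cast_nonneg _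
      have hB0 : (0 : ℝ) ≤ B := Nat.cast_nonneg _
      have hd0 : (0 : ℝ) ≤ ((cayley S).dist g h : ℝ) := Nat.cast_nonneg _
      have h8 := mul_le_mul_of_nonneg_left h7 hM0
      nlinarith [mul_nonneg hA0 hd0]
  · intro r
    refine ⟨w ^ (⌊r⌋ - n 1) * 1, ?_⟩
    show |((n (w ^ (⌊r⌋ - n 1) * 1) : ℤ) : ℝ) - r| ≤ _
    rw [hadd, sub_add_cancel]
    have h1 := Int.floor_le r
    have h2 := Int.lt_floor_add_one r
    have hB0 : (0 : ℝ) ≤ B := Nat.cast_nonneg _
    rw [abs_le]
    constructor <;> linarith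

section Struct

variable {V : Type} {Γ : SimpleGraph V} {G : V → Type} [∀ u, Group (G u)]

/-- The exceptional pairs: two nonadjacent vertices with vertex groups of order two, every other
vertex being adjacent to all vertices other than itself. -/
def Special (Γ : SimpleGraph V) (G : V → Type) : Prop :=
  ∃ u v, u ≠ v ∧ ¬ Γ.Adj u v ∧ Nat.card (G u) = 2 ∧ Nat.card (G v) = 2 ∧
    ∀ w, w ≠ u → w ≠ v → ∀ z, z ≠ w → Γ.Adj w z

theorem minsq_sq {Λ : Set V} (h : Minsq Γ Λ) : ∃ a b c d, IsSq Γ a b c d := by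
  obtain ⟨_, a, b, c, d, h, _⟩ := h.prop
  exact ⟨a, b, c, d, h⟩

theorem card_two {K : Type} [Group K] [Nontrivial K]
    (h : ∀ c c' : K, c ≠ 1 → c' ≠ 1 → c = c') : Nat.card K = 2 := by
  obtain ⟨c, hc⟩ := exists_ne (1 : K)
  rw [Nat.card_eq_two_iff]
  refine ⟨1, c, hc.symm, ?_⟩
  ext z
  simp only [Set.mem_insert_iff, Set.mem_singleton_iff, Set.mem_univ, iff_true]
  by_cases hz : z = 1
  · exact Or.inl hz
  · exact Or.inr (h z c hz hc)

theorem special_of_ql [Finite V] [∀ u, Nontrivial (G u)] (h : QuasiLine (cayley (elecGens Γ G))) :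
    Special Γ G := by
  have hsq : ¬ ∃ a b c d, IsSq Γ a b c d := fun h' => square_not h' h
  have hno : ∀ Λ : Set V, ¬ Minsq Γ Λ := fun Λ hΛ => hsq (minsq_sq hΛ)
  have c3 : ∀ x b x' : V, b ≠ x → x' ≠ x → b ≠ x' → ¬ Γ.Adj x b → ¬ Γ.Adj x x' → False :=
    fun x b x' h1 h2 h3 h4 h5 => case3 h1 h2 h3 h4 h5 (fun Λ hΛ => absurd hΛ (hno Λ)) h
  have c2 : ∀ x v : V, v ≠ x → ¬ Γ.Adj x v → Nat.card (G x) = 2 := by
    intro x v hv hxv
    apply card_two
    intro c c' hc hc'
    by_contra hcc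
    exact case2 hv hxv hc hc' hcc (fun Λ hΛ => absurd hΛ (hno Λ)) h
  by_cases hcomp : ∀ u v, u ≠ v → Γ.Adj u v
  · exfalso
    refine bounded (Γ := Γ) (G := G) (Λ := ∅) ?_ (fun b _ v hv => hcomp b v hv.symm) h
    intro γ hγ
    have h1 : γ = 1 := by
      refine sub_induction (P := fun γ => γ = 1) rfl ?_ γ hγ
      intro γ u g hu
      exact absurd hu (Set.notMem_empty u)
    rw [h1]
    exact Len.one _ _
  · push Not at hcomp
    obtain ⟨u, v, huv, hnadj⟩ := hcomp
    refine ⟨u, v, huv, hnadj, c2 u v huv.symm hnadj, c2 v u huv (fun h' => hnadj h'.symm), ?_⟩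
    intro w hwu hwv z hz
    by_contra hwz
    have a1 : Γ.Adj u w := by
      by_contra h'
      exact c3 u v w huv.symm hwu hwv.symm hnadj h'
    have a2 : Γ.Adj v w := by
      by_contra h'
      exact c3 v u w huv hwv hwu.symm (fun h => hnadj h.symm) h'
    have hzu : z ≠ u := fun h' => hwz (by rw [h']; exact a1.symm)
    have hzv : z ≠ v := fun h' => hwz (by rw [h']; exact a2.symm)
    have a3 : Γ.Adj u z := by
      by_contra h'
      exact c3 u v z huv.symm hzu hzv.symm hnadj h'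
    have a4 : Γ.Adj v z := by
      by_contra h'
      exact c3 v u z huv hzv hzu.symm (fun h => hnadj h.symm) h'
    exact hsq ⟨u, w, v, z, a1, a2.symm, a4, a3.symm, huv, hz.symm, hnadj, hwz⟩

open Classical in
/-- the retraction onto the free product of the vertex groups of two nonadjacent vertices -/
noncomputable def retr {u v : V} (h : ¬ Γ.Adj u v) : GraphProduct Γ G →* CoprodI G :=
  glift (fun z => if z = u ∨ z = v then CoprodI.of else 1) (by
    intro z z' hz g g'
    by_cases h1 : z = u ∨ z = v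
    · by_cases h2 : z' = u ∨ z' = v
      · exfalso
        rcases h1 with rfl | rfl <;> rcases h2 with rfl | rfl
        · exact hz.ne rfl
        · exact h hz
        · exact h hz.symm
        · exact hz.ne rfl
      · rw [if_neg h2]
        exact Commute.one_right _
    · rw [if_neg h1]
      exact Commute.one_left _)

theorem retr_in {u v : V} (h : ¬ Γ.Adj u v) {z : V} (hz : z = u ∨ z = v) (g : G z) :
    retr h (ofVertex Γ G z g) = CoprodI.of g := by
  unfold retr
  rw [glift_gof, if_pos hz]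

theorem retr_out {u v : V} (h : ¬ Γ.Adj u v) {z : V} (hz : ¬ (z = u ∨ z = v)) (g : G z) :
    retr h (ofVertex Γ G z g) = 1 := by
  unfold retr
  rw [glift_gof, if_neg hz]
  rfl

theorem inf_order {u v : V} (huv : u ≠ v) {a : G u} {b : G v} (ha : a ≠ 1) (hb : b ≠ 1) :
    ¬ IsOfFinOrder (CoprodI.of a * CoprodI.of b : CoprodI G) := by
  rw [isOfFinOrder_iff_pow_eq_one]
  rintro ⟨n, hn, h⟩
  have h1 := nrm_pow (M := G) huv ha hb n
  rw [h, nrm_one] at h1
  omega

theorem no_sq_of_vc [∀ u, Nontrivial (G u)] (h : InfVC (GraphProduct Γ G)) :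
    ¬ ∃ a b c d, IsSq Γ a b c d := by
  rintro ⟨x, y, x', y', hsq⟩
  obtain ⟨_, C, hcyc, hfi⟩ := h
  obtain ⟨w0, hw0⟩ := hcyc.exists_generator
  have hC : ∀ c ∈ C, ∃ n : ℤ, (w0 : GraphProduct Γ G) ^ n = c := by
    intro c hc
    obtain ⟨n, hn⟩ := Subgroup.mem_zpowers_iff.mp (hw0 ⟨c, hc⟩)
    refine ⟨n, ?_⟩
    have := congrArg (fun z : C => (z : GraphProduct Γ G)) hn
    simpa using this
  obtain ⟨a, ha⟩ := exists_ne (1 : G x)
  obtain ⟨a', ha'⟩ := exists_ne (1 : G x')
  obtain ⟨b, hb⟩ := exists_ne (1 : G y)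
  obtain ⟨b', hb'⟩ := exists_ne (1 : G y')
  obtain ⟨h1, h2, h3, h4, h5, h6, h7, h8⟩ := hsq
  obtain ⟨m, hm, _, hmC⟩ := Subgroup.exists_pow_mem_of_index_ne_zero hfi.index_ne_zero
    (ofVertex Γ G x a * ofVertex Γ G x' a')
  obtain ⟨n, hn, _, hnC⟩ := Subgroup.exists_pow_mem_of_index_ne_zero hfi.index_ne_zero
    (ofVertex Γ G y b * ofVertex Γ G y' b')
  obtain ⟨i, hi⟩ := hC _ hmC
  obtain ⟨j, hj⟩ := hC _ hnC
  have e1 : ((ofVertex Γ G x a * ofVertex Γ G x' a') ^ m) ^ j = ((ofVertex Γ G y b * ofVertex Γ G y' b') ^ n) ^ i := by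
    rw [← hi, ← hj, ← zpow_mul, ← zpow_mul, mul_comm]
  have hj0 : j = 0 := by
    by_contra hj0
    have e2 := congrArg (retr h7) e1
    rw [map_zpow, map_zpow, map_pow, map_pow, map_mul, map_mul, retr_in h7 (Or.inl rfl),
      retr_in h7 (Or.inr rfl), retr_out h7 (fun h => by
        rcases h with h | h
        · exact h1.ne h.symm
        · exact h2.ne h), retr_out h7 (fun h => by
        rcases h with h | h
        · exact h4.ne h
        · exact h3.ne h.symm)] at e2
    simp only [mul_one, one_pow, one_zpow] at e2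
    apply inf_order h5 ha ha'
    rw [isOfFinOrder_iff_zpow_eq_one]
    refine ⟨m * j, ?_, ?_⟩
    · have : (m : ℤ) ≠ 0 := by exact_mod_cast hm.ne'
      exact mul_ne_zero this hj0
    · rw [zpow_mul, zpow_natCast]
      exact e2
  rw [hj0, zpow_zero] at hj
  have e3 := congrArg (retr h8) hj
  rw [map_one, map_pow, map_mul, retr_in h8 (Or.inl rfl), retr_in h8 (Or.inr rfl)] at e3
  apply inf_order h6 hb hb'
  rw [isOfFinOrder_iff_pow_eq_one]
  exact ⟨n, hn, e3.symm⟩

theorem ql_of_vc [Finite V] [∀ u, Finite (G u)] [∀ u, Nontrivial (G u)] (h : InfVC (GraphProduct Γ G)) :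
    QuasiLine (cayley (elecGens Γ G)) := by
  have hsq := no_sq_of_vc h
  have hSE : elecGens Γ G = ⋃ u, Set.range (ofVertex Γ G u) := by
    ext γ
    simp only [Set.mem_iUnion, Set.mem_range]
    constructor
    · rintro (⟨u, g, rfl⟩ | ⟨Λ, hΛ, _⟩)
      · exact ⟨u, g, rfl⟩
      · exact absurd (minsq_sq hΛ) hsq
    · rintro ⟨u, g, rfl⟩
      exact Or.inl ⟨u, g, rfl⟩
  refine vc_ql ?_ SE_inv ?_ h
  · rw [hSE]
    exact Set.finite_iUnion fun u => Set.finite_range _
  · intro γ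
    refine gp_induction (P := fun γ => ∃ n, Len (elecGens Γ G) n γ) ⟨0, Len.one _ _⟩ ?_ γ
    rintro γ u g ⟨n, hn⟩
    exact ⟨n + 1, hn.mul (Len.of_mem (Or.inl ⟨u, g, rfl⟩))⟩

theorem sub_finite [∀ u, Finite (G u)] (l : List V)
    (hadj : ∀ b ∈ l, ∀ v, v ≠ b → ∀ (g : G b) (g' : G v),
      Commute (ofVertex Γ G b g) (ofVertex Γ G v g')) :
    ((vertexSubgroup Γ G {v | v ∈ l} : Subgroup (GraphProduct Γ G)) : Set (GraphProduct Γ G)).Finite := by
  induction l with
  | nil =>
    refine (Set.finite_singleton (1 : GraphProduct Γ G)).subset ?_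
    intro γ hγ
    refine sub_induction (P := fun γ => γ ∈ ({1} : Set (GraphProduct Γ G))) rfl ?_ γ hγ
    intro γ u g hu
    exact absurd hu (by simp)
  | cons b l ih =>
    have ih' := ih (fun z hz => hadj z (List.mem_cons_of_mem _ hz))
    have h1 : (Set.image2 (fun δ γ => δ * γ) ((vertexSubgroup Γ G {v | v ∈ l} : Subgroup (GraphProduct Γ G)) :
        Set (GraphProduct Γ G)) (Set.range (ofVertex Γ G b))).Finite :=
      Set.Finite.image2 _ ih' (Set.finite_range _)
    refine h1.subset ?_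
    intro γ hγ
    refine sub_induction (P := fun γ => γ ∈ Set.image2 (fun δ γ => δ * γ)
      ((vertexSubgroup Γ G {v | v ∈ l} : Subgroup (GraphProduct Γ G)) : Set (GraphProduct Γ G)) (Set.range (ofVertex Γ G b)))
      ⟨1, one_mem _, 1, ⟨1, map_one _⟩, mul_one _⟩ ?_ γ hγ
    rintro γ u g' hu ⟨δ, hδ, _, ⟨g, rfl⟩, rfl⟩
    by_cases hub : u = b
    · subst hub
      exact ⟨δ, hδ, _, ⟨g * g', rfl⟩, by rw [map_mul, mul_assoc]⟩
    · refine ⟨δ * ofVertex Γ G u g', mul_mem hδ (Subgroup.subset_closure ⟨u, ?_, g', rfl⟩), _,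
        ⟨g, rfl⟩, ?_⟩
      · simp only [Set.mem_ofPred_eq, List.mem_cons] at hu
        rcases hu with hu | hu
        · exact absurd hu hub
        · exact hu
      · show δ * ofVertex Γ G u g' * ofVertex Γ G b g = δ * ofVertex Γ G b g * ofVertex Γ G u g'
        rw [mul_assoc, mul_assoc, (hadj b (by simp) u hub g g').eq]

theorem vc_of_comm [Finite V] [∀ u, Finite (G u)] {u v : V} (huv : u ≠ v) (hnadj : ¬ Γ.Adj u v)
    (hu2 : Nat.card (G u) = 2) (hv2 : Nat.card (G v) = 2)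
    (hoth : ∀ w, w ≠ u → w ≠ v → ∀ z, z ≠ w → ∀ (g : G w) (g' : G z),
      Commute (ofVertex Γ G w g) (ofVertex Γ G z g')) : InfVC (GraphProduct Γ G) := by
  classical
  have two : ∀ {K : Type} [Group K], Nat.card K = 2 → ∃ a : K, a ≠ 1 ∧ a * a = 1 ∧
      ∀ g : K, g = 1 ∨ g = a := by
    intro K _ hK
    obtain ⟨x, y, hxy, hun⟩ := Nat.card_eq_two_iff.mp hK
    have hall : ∀ g : K, g = x ∨ g = y := by
      intro g
      have : g ∈ ({x, y} : Set K) := by rw [hun]; trivial
      simpa using this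
    have h1 : ∃ a : K, a ≠ 1 ∧ ∀ g : K, g = 1 ∨ g = a := by
      rcases hall 1 with h | h
      · exact ⟨y, fun h' => hxy (h.symm.trans h'.symm), fun g => by rw [h]; exact hall g⟩
      · exact ⟨x, fun h' => hxy (h'.trans h), fun g => by rw [h]; exact (hall g).symm⟩
    obtain ⟨a, ha, hall'⟩ := h1
    refine ⟨a, ha, ?_, hall'⟩
    rcases hall' (a * a) with h | h
    · exact h
    · exact absurd (mul_eq_left.mp h) ha
  obtain ⟨a0, ha0, haa, hau⟩ := two hu2
  obtain ⟨b0, hb0, hbb, hbv⟩ := two hv2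
  obtain ⟨a, hadef⟩ : ∃ a, a = ofVertex Γ G u a0 := ⟨_, rfl⟩
  obtain ⟨b, hbdef⟩ : ∃ b, b = ofVertex Γ G v b0 := ⟨_, rfl⟩
  have haa' : a * a = 1 := by rw [hadef, ← map_mul, haa, map_one]
  have hbb' : b * b = 1 := by rw [hbdef, ← map_mul, hbb, map_one]
  have hinf : ¬ IsOfFinOrder (a * b) := by
    intro h
    have h1 := (retr (G := G) hnadj).isOfFinOrder h
    rw [hadef, hbdef, map_mul, retr_in hnadj (Or.inl rfl), retr_in hnadj (Or.inr rfl)] at h1
    exact inf_order huv ha0 hb0 h1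
  have := Fintype.ofFinite V
  obtain ⟨l, hl⟩ : ∃ l : List V, ∀ z, z ∈ l ↔ z ≠ u ∧ z ≠ v :=
    ⟨(Finset.univ.filter (fun z => z ≠ u ∧ z ≠ v)).toList, fun z => by simp⟩
  have hKfin := sub_finite (Γ := Γ) (G := G) l (fun z hz w hw =>
    hoth z ((hl z).mp hz).1 ((hl z).mp hz).2 w hw)
  have hKcomm : ∀ k ∈ vertexSubgroup Γ G {z | z ∈ l}, ∀ z, (z = u ∨ z = v) → ∀ g : G z,
      Commute k (ofVertex Γ G z g) := by
    intro k hk z hz g
    refine sub_induction (P := fun k => Commute k (ofVertex Γ G z g)) (Commute.one_left _) ?_ k hk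
    intro γ w g' hw hc
    have hw' := (hl w).mp hw
    refine hc.mul_left (hoth w hw'.1 hw'.2 z ?_ g' g)
    rcases hz with rfl | rfl
    · exact hw'.1.symm
    · exact hw'.2.symm
  have hform : ∀ γ : GraphProduct Γ G, ∃ n : ℤ, ∃ e : GraphProduct Γ G, (e = 1 ∨ e = a) ∧
      ∃ k ∈ vertexSubgroup Γ G {z | z ∈ l}, γ = (a * b) ^ n * e * k := by
    refine gp_induction ⟨0, 1, Or.inl rfl, 1, one_mem _, by simp⟩ ?_
    rintro γ z g ⟨n, e, he, k, hk, rfl⟩
    by_cases hz : z = u
    · subst hz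
      rcases hau g with rfl | rfl
      · exact ⟨n, e, he, k, hk, by rw [map_one, mul_one]⟩
      · have h1 := (hKcomm k hk z (Or.inl rfl) g).eq
        rw [← hadef] at h1 ⊢
        refine ⟨n, e * a, ?_, k, hk, ?_⟩
        · rcases he with rfl | rfl
          · right; rw [one_mul]
          · left; exact haa'
        · rw [mul_assoc _ k a, h1]
          simp only [mul_assoc]
    · by_cases hz' : z = v
      · subst hz'
        rcases hbv g with rfl | rfl
        · exact ⟨n, e, he, k, hk, by rw [map_one, mul_one]⟩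
        · have h1 := (hKcomm k hk z (Or.inr rfl) g).eq
          rw [← hbdef] at h1 ⊢
          rcases he with rfl | rfl
          · refine ⟨n - 1, a, Or.inr rfl, k, hk, ?_⟩
            rw [mul_assoc _ k b, h1, mul_one]
            have h2 : (a * b)⁻¹ * a = b := by
              rw [mul_inv_rev]
              have hb' : b⁻¹ = b := inv_eq_of_mul_eq_one_left hbb'
              rw [inv_mul_cancel_right, hb']
            have h3 : (a * b) ^ (n - 1) * a = (a * b) ^ n * b := by
              rw [zpow_sub_one, mul_assoc, h2]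
            rw [h3, mul_assoc]
          · refine ⟨n + 1, 1, Or.inl rfl, k, hk, ?_⟩
            rw [mul_assoc _ k b, h1, mul_one, zpow_add_one]
            simp only [mul_assoc]
      · refine ⟨n, e, he, k * ofVertex Γ G z g, mul_mem hk (Subgroup.subset_closure
          ⟨z, (hl z).mpr ⟨hz, hz'⟩, g, rfl⟩), by rw [mul_assoc]⟩
  refine ⟨?_, Subgroup.zpowers (a * b), inferInstance, ?_⟩
  · have h1 : Function.Injective (fun n : ℤ => (a * b) ^ n) :=
      injective_zpow_iff_not_isOfFinOrder.mpr hinf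
    exact Infinite.of_injective _ h1
  · have hfinset : (Set.image2 (fun e k : GraphProduct Γ G => e * k) {1, a}
        ((vertexSubgroup Γ G {z | z ∈ l} : Subgroup (GraphProduct Γ G)) : Set (GraphProduct Γ G))).Finite :=
      Set.Finite.image2 _ (by simp) hKfin
    have hq : Finite (GraphProduct Γ G ⧸ Subgroup.zpowers (a * b)) := by
      have h2 : (Set.univ : Set (GraphProduct Γ G ⧸ Subgroup.zpowers (a * b))) ⊆
          (fun f : GraphProduct Γ G => (QuotientGroup.mk f⁻¹ : GraphProduct Γ G ⧸ Subgroup.zpowers (a * b))) ''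
            (Set.image2 (fun e k : GraphProduct Γ G => e * k) {1, a}
              ((vertexSubgroup Γ G {z | z ∈ l} : Subgroup (GraphProduct Γ G)) : Set (GraphProduct Γ G))) := by
        intro q _
        obtain ⟨g, rfl⟩ := QuotientGroup.mk_surjective q
        obtain ⟨n, e, he, k, hk, hg⟩ := hform g⁻¹
        refine ⟨e * k, ⟨e, by simpa using he, k, hk, rfl⟩, ?_⟩
        show (QuotientGroup.mk (e * k)⁻¹ : GraphProduct Γ G ⧸ Subgroup.zpowers (a * b)) = QuotientGroup.mk g
        rw [QuotientGroup.eq]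
        have h3 : (e * k)⁻¹⁻¹ * g = (a * b) ^ (-n) := by
          have h4 : g = (e * k)⁻¹ * (a * b) ^ (-n) := by
            rw [← inv_inv g, hg]
            rw [mul_assoc, mul_inv_rev, zpow_neg]
          rw [h4, inv_inv, mul_inv_cancel_left]
        rw [h3]
        exact Subgroup.mem_zpowers_iff.mpr ⟨-n, rfl⟩
      exact Set.finite_univ_iff.mp ((hfinset.image _).subset h2)
    exact Subgroup.finiteIndex_of_finite_quotient

theorem vc_of_special [Finite V] [∀ u, Finite (G u)] (h : Special Γ G) : InfVC (GraphProduct Γ G) := by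
  obtain ⟨u, v, huv, hnadj, hu2, hv2, hoth⟩ := h
  exact vc_of_comm huv hnadj hu2 hv2 (fun w h1 h2 z h3 g g' => gof_comm (hoth w h1 h2 z h3) g g')

end Struct

/-! ### An example with trivial vertex groups -/

section Example

/-- the 4-cycle -/
def exΓ : SimpleGraph (Fin 4) where
  Adj i j := i.val % 2 ≠ j.val % 2
  symm := ⟨fun _ _ h => h.symm⟩
  loopless := ⟨fun _ h => h rfl⟩

/-- the groups `ℤ/2, 1, ℤ/2, 1` -/
abbrev exG (i : Fin 4) : Type := Multiplicative (ZMod (if i.val % 2 = 0 then 2 else 1))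

theorem exG_finite (i : Fin 4) : Finite (exG i) := by
  fin_cases i
  · exact (inferInstance : Finite (Multiplicative (ZMod 2)))
  · exact (inferInstance : Finite (Multiplicative (ZMod 1)))
  · exact (inferInstance : Finite (Multiplicative (ZMod 2)))
  · exact (inferInstance : Finite (Multiplicative (ZMod 1)))

theorem ex_vc : InfVC (GraphProduct exΓ exG) := by
  have := exG_finite
  refine vc_of_comm (Γ := exΓ) (G := exG) (u := 0) (v := 2) (by decide) ?_ ?_ ?_ ?_
  · intro h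
    exact h rfl
  · have h1 : Nat.card (Multiplicative (ZMod 2)) = 2 := by
      rw [Nat.card_congr Multiplicative.toAdd, Nat.card_zmod]
    exact h1
  · have h1 : Nat.card (Multiplicative (ZMod 2)) = 2 := by
      rw [Nat.card_congr Multiplicative.toAdd, Nat.card_zmod]
    exact h1
  · intro w hw0 hw2 z _ g g'
    have hs : Subsingleton (exG w) := by
      fin_cases w
      · exact absurd rfl hw0
      · exact (inferInstance : Subsingleton (Multiplicative (ZMod 1)))
      · exact absurd rfl hw2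
      · exact (inferInstance : Subsingleton (Multiplicative (ZMod 1)))
    rw [Subsingleton.elim g 1, map_one]
    exact Commute.one_left _

theorem ex_not : ¬ QuasiLine (cayley (elecGens exΓ exG)) := by
  have hM : Minsq exΓ Set.univ := by
    refine ⟨⟨fun a b c d _ _ _ => ⟨trivial, trivial⟩, 0, 1, 2, 3, ?_, trivial, trivial, trivial,
      trivial⟩, ?_⟩
    · refine ⟨?_, ?_, ?_, ?_, by decide, by decide, ?_, ?_⟩ <;> simp [exΓ]
    · rintro Λ ⟨_, a, b, c, d, ⟨h1, h2, h3, h4, h5, h6, _, _⟩, ha, hb, hc, hd⟩ _ z _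
      have h7 : ({a, b, c, d} : Finset (Fin 4)) = Finset.univ := by
        apply Finset.eq_univ_of_card
        rw [Fintype.card_fin]
        have e1 : a ≠ b := h1.ne
        have e2 : b ≠ c := h2.ne
        have e3 : c ≠ d := h3.ne
        have e4 : d ≠ a := h4.ne
        rw [Finset.card_insert_of_notMem (by simp [e1, h5, e4.symm]),
          Finset.card_insert_of_notMem (by simp [e2, h6]),
          Finset.card_insert_of_notMem (by simp [e3]), Finset.card_singleton]
      have h8 : z ∈ ({a, b, c, d} : Finset (Fin 4)) := by rw [h7]; exact Finset.mem_univ z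
      simp only [Finset.mem_insert, Finset.mem_singleton] at h8
      rcases h8 with rfl | rfl | rfl | rfl <;> assumption
  refine bounded_not_quasiLine 1 (fun γ => Len.of_mem (Or.inr ⟨Set.univ, hM, ?_⟩))
  rw [sub_univ]
  trivial

end Example

/-! ### The result -/

/-- The electrification: the Cayley graph of the graph product with respect to all elements of
the vertex groups and all elements of the subgroups of the minsquare subgraphs. -/
def electrification {V : Type} (Γ : SimpleGraph V) (G : V → Type) [∀ u, Group (G u)] :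
    SimpleGraph (GraphProduct Γ G) := cayley (elecGens Γ G)

/-- For nontrivial finite vertex groups the electrification is a quasi-line if and only if the
graph product is infinite virtually cyclic, if and only if there are two nonadjacent vertices with
vertex groups of order two and every other vertex is adjacent to all other vertices. With trivial
vertex groups allowed the first equivalence fails. -/
theorem result :
    (∀ (V : Type) [Finite V] (Γ : SimpleGraph V) (G : V → Type) [∀ u, Group (G u)]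
      [∀ u, Finite (G u)] [∀ u, Nontrivial (G u)],
      (QuasiLine (electrification Γ G) ↔ InfVC (GraphProduct Γ G)) ∧
      (QuasiLine (electrification Γ G) ↔ Special Γ G)) ∧
    ∃ (V : Type) (_ : Finite V) (Γ : SimpleGraph V) (G : V → Type) (_ : ∀ u, Group (G u)),
      (∀ u, Finite (G u)) ∧ InfVC (GraphProduct Γ G) ∧ ¬ QuasiLine (electrification Γ G) := by
  refine ⟨?_, Fin 4, inferInstance, exΓ, exG, inferInstance, exG_finite, ex_vc, ex_not⟩
  intro V _ Γ G _ _ _
  refine ⟨⟨fun h => vc_of_special (special_of_ql h), fun h => ql_of_vc h⟩,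
    ⟨fun h => special_of_ql h, fun h => ql_of_vc (vc_of_special h)⟩⟩

end Pool.Agent.Results.MP_7fb950_al.QuasiLineIff
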